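import Pool.Agent.Helper20.TypeTwo.Defs

/-!
# A multiply connected wandering domain with a complementary component of type 2

We construct a transcendental entire function `f` with a multiply connected wandering domain `U`
one of whose complementary components `K` has non-empty interior which is a union of Fatou
components, that is, `K` is of type 2.

Sketch.  Let `T(v) = v (1 - (v - 1) + 1000 (v - 1)^2) = 1002 v - 2001 v^2 + 1000 v^3`, so that
`T(1) = 1`, `T'(1) = 0`, while `|T|` is large on a loop around `1`.  With `m_n = 3^(n+3)` and radii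
`r_n` growing very fast, the lacunary series
`f(z) = sum_n r_(n+1) (1002 (z/r_n)^(m_n) - 2001 (z/r_n)^(2 m_n))`
satisfies `f(r_n u) ~ r_(n+1) T(u^(m_n))` for `|u| <= 3`.
The annuli `B_n = {2 r_n < |z| < r_(n+1)/2}` satisfy `f(B_n) ⊆ B_(n+1)` and lie in multiply
connected wandering domains `U_n`.  A small circle around `r_n` and a segment joining it to `B_n`
are mapped into `B_(n+1)`, hence lie in `U_n`, while the points `r_n` form (up to tiny errors) a
superattracting orbit.  A Harnack type inequality on `U_n`, applied to `log |f^j|`, shows that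
`r_n` is not in `U_n`, and that the `U_n` are pairwise different.  The component `K_n` of the
complement of `U_n` containing `r_n` is enclosed by the small circle, and `f(K_n) ⊆ K_(n+1)`.
Hence the iterates tend to infinity uniformly on `K_n`, the interior of `K_n` lies in the Fatou
set, and `K_n` is of type 2.
-/

open Complex Set Filter Topology Metric

namespace Pool.Agent.Helper20.TypeTwo

/-! ### Escaping part of the Fatou set -/

/-- Set of points near which the iterates tend to infinity uniformly. -/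
def esc (f : ℂ → ℂ) : Set ℂ :=
  {z | ∃ W ∈ 𝓝 z, ∀ M : ℝ, ∀ᶠ j in atTop, ∀ w ∈ W, M < ‖f^[j] w‖}

theorem isOpen_esc (f : ℂ → ℂ) : IsOpen (esc f) := by
  rw [isOpen_iff_mem_nhds]
  rintro z ⟨W, hW, h⟩
  obtain ⟨W', hW', hW'o, hz⟩ := _root_.mem_nhds_iff.1 hW
  refine mem_of_superset (hW'o.mem_nhds hz) ?_
  intro w hw
  exact ⟨W, mem_of_superset (hW'o.mem_nhds hw) hW', h⟩

theorem isOpen_fatouSet (f : ℂ → ℂ) : IsOpen (fatouSet f) := by
  rw [isOpen_iff_mem_nhds]
  rintro z ⟨V, hVo, hVc, hz, h⟩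
  exact mem_of_superset (hVo.mem_nhds hz) (fun w hw => ⟨V, hVo, hVc, hw, h⟩)

/-- every sequence of naturals has a subsequence that is constant or strictly increasing -/
theorem exists_const_or_strictMono (φ : ℕ → ℕ) :
    ∃ ψ : ℕ → ℕ, StrictMono ψ ∧ ((∃ c, ∀ k, φ (ψ k) = c) ∨ StrictMono (φ ∘ ψ)) := by
  by_cases h : ∃ c, ∃ᶠ k in atTop, φ k = c
  · obtain ⟨c, hc⟩ := h
    obtain ⟨ψ, hψ, h⟩ := extraction_of_frequently_atTop hc
    exact ⟨ψ, hψ, Or.inl ⟨c, h⟩⟩
  · push Not at h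
    have ht : Tendsto φ atTop atTop := by
      rw [Filter.tendsto_atTop]
      intro b
      have : ∀ᶠ k in atTop, ∀ c ∈ Finset.range b, φ k ≠ c := by
        rw [Filter.eventually_all_finset]
        intro c _
        simpa [Filter.not_frequently] using h c
      filter_upwards [this] with k hk
      by_contra hlt
      exact hk (φ k) (by simpa using hlt) rfl
    obtain ⟨ψ, hψ, h⟩ := strictMono_subseq_of_tendsto_atTop ht
    exact ⟨ψ, hψ, Or.inr h⟩

theorem esc_subset_fatouSet {f : ℂ → ℂ} (hf : Differentiable ℂ f) : esc f ⊆ fatouSet f := by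
  rintro z ⟨W, hW, h⟩
  obtain ⟨ε, hε, hball⟩ := Metric.mem_nhds_iff.1 hW
  refine ⟨ball z ε, isOpen_ball, (convex_ball z ε).isConnected ⟨z, mem_ball_self hε⟩,
    mem_ball_self hε, ?_⟩
  intro φ
  obtain ⟨ψ, hψ, hc | hs⟩ := exists_const_or_strictMono φ
  · obtain ⟨c, hc⟩ := hc
    refine ⟨ψ, hψ, Or.inl ⟨f^[c + 1], (hf.iterate _).differentiableOn, ?_⟩⟩
    simp only [hc]
    intro u hu x hx
    exact ⟨univ, univ_mem, Eventually.of_forall fun _ y _ => refl_mem_uniformity hu⟩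
  · refine ⟨ψ, hψ, Or.inr ?_⟩
    intro C hC _ M
    have h1 := h M
    have h2 : Tendsto (fun k => φ (ψ k) + 1) atTop atTop :=
      (tendsto_add_atTop_nat 1).comp hs.tendsto_atTop
    filter_upwards [h2.eventually h1] with k hk w hw
    exact hk w (hball (hC hw))


/-- backward invariance -/
theorem esc_of_image_mem_esc {f : ℂ → ℂ} (hf : Continuous f) {z : ℂ} (hz : f z ∈ esc f) :
    z ∈ esc f := by
  obtain ⟨W, hW, h⟩ := hz
  refine ⟨f ⁻¹' W, hf.continuousAt hW, fun M => ?_⟩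
  have h1 := (tendsto_sub_atTop_nat 1).eventually (h M)
  filter_upwards [h1, eventually_ge_atTop 1] with j hj hj1 w hw
  have : f^[j] w = f^[j - 1] (f w) := by
    conv_lhs => rw [show j = (j - 1) + 1 by omega]
    rw [Function.iterate_succ_apply]
  rw [this]
  exact hj (f w) hw

/-- forward invariance, for an open map -/
theorem image_mem_esc {f : ℂ → ℂ} (hf : IsOpenMap f) {z : ℂ} (hz : z ∈ esc f) :
    f z ∈ esc f := by
  obtain ⟨W, hW, h⟩ := hz
  refine ⟨f '' W, hf.image_mem_nhds hW, fun M => ?_⟩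
  have h1 := (tendsto_add_atTop_nat 1).eventually (h M)
  filter_upwards [h1] with j hj w hw
  obtain ⟨v, hv, rfl⟩ := hw
  rw [← Function.iterate_succ_apply]
  exact hj v hv

/-- A Fatou component (or any connected subset of the Fatou set) meeting `esc` lies in `esc`. -/
theorem subset_esc {f : ℂ → ℂ} {U : Set ℂ} (hU : IsPreconnected U) (hUF : U ⊆ fatouSet f)
    (hne : (U ∩ esc f).Nonempty) : U ⊆ esc f := by
  refine hU.subset_of_closure_inter_subset (isOpen_esc f) hne ?_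
  rintro z ⟨hzc, hzU⟩
  obtain ⟨V, hVo, hVc, hzV, hnorm⟩ := hUF hzU
  obtain ⟨ε, hε, hball⟩ := Metric.isOpen_iff.1 hVo z hzV
  obtain ⟨p, hpV, hpE⟩ : (V ∩ esc f).Nonempty :=
    mem_closure_iff.1 hzc V hVo hzV
  by_contra hz
  have hsub : closedBall z (ε / 2) ⊆ V :=
    (closedBall_subset_ball (by linarith)).trans hball
  -- there is M such that frequently some point of the closed ball is not > M
  have h1 : ∃ M : ℝ, ∃ᶠ j in atTop, ∃ w ∈ closedBall z (ε / 2), ‖f^[j + 1] w‖ ≤ M := by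
    by_contra hcon
    push Not at hcon
    apply hz
    refine ⟨closedBall z (ε / 2), closedBall_mem_nhds z (by linarith), fun M => ?_⟩
    have h2 := (tendsto_sub_atTop_nat 1).eventually (hcon M)
    filter_upwards [h2, eventually_ge_atTop 1] with j hj hj1 w hw
    have h3 := hj w hw
    rwa [show j - 1 + 1 = j by omega] at h3
  obtain ⟨M, hM⟩ := h1
  obtain ⟨φ, hφ, hφM⟩ := extraction_of_frequently_atTop hM
  obtain ⟨ψ, hψ, h⟩ := hnorm φ
  rcases h with ⟨g, -, hg⟩ | h
  · -- convergence to a finite function contradicts escape at p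
    have h3 : Tendsto (fun k => f^[φ (ψ k) + 1] p) atTop (𝓝 (g p)) := hg.tendsto_at hpV
    obtain ⟨W, hW, hWe⟩ := hpE
    have h4 : Tendsto (fun k => φ (ψ k) + 1) atTop atTop :=
      (tendsto_add_atTop_nat 1).comp (hφ.comp hψ).tendsto_atTop
    have h5 := h4.eventually (hWe (‖g p‖ + 1))
    have h6 : ∀ᶠ k in atTop, ‖f^[φ (ψ k) + 1] p‖ < ‖g p‖ + 1 :=
      h3.norm.eventually (gt_mem_nhds (by linarith))
    obtain ⟨k, hk5, hk6⟩ := (h5.and h6).exists
    exact absurd (hk5 p (mem_of_mem_nhds hW)) (not_lt.2 hk6.le)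
  · have h7 := h _ hsub (isCompact_closedBall z (ε / 2)) M
    obtain ⟨k, hk⟩ := h7.exists
    obtain ⟨w, hw, hwM⟩ := hφM (ψ k)
    exact absurd (hk w hw) (not_lt.2 hwM)

/-- Harnack-type inequality for a holomorphic function of modulus greater than one. -/
theorem log_norm_le_three_mul {F : ℂ → ℂ} {w : ℂ} {δ : ℝ} 
    (hF : DifferentiableOn ℂ F (ball w δ)) (h1 : ∀ z ∈ ball w δ, 1 < ‖F z‖) {z : ℂ}
    (hz : z ∈ ball w (δ / 2)) : Real.log ‖F z‖ ≤ 3 * Real.log ‖F w‖ := by
  have hδ : 0 < δ := by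
    have := pos_of_mem_ball hz
    linarith
  have hw : w ∈ ball w δ := mem_ball_self hδ
  have hzδ : z ∈ ball w δ := ball_subset_ball (by linarith) hz
  have hne : ∀ z ∈ ball w δ, F z ≠ 0 := fun z hz h => by
    have := h1 z hz
    rw [h] at this
    simp at this
    linarith
  -- logarithm
  have hF' : DifferentiableOn ℂ (deriv F) (ball w δ) := hF.deriv isOpen_ball
  obtain ⟨L, hL⟩ : Complex.IsExactOn (fun z => deriv F z / F z) (ball w δ) :=
    DifferentiableOn.isExactOn_ball (hF'.div hF hne)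
  -- normalise
  set G : ℂ → ℂ := fun z => L z - L w + Complex.log (F w) with hG
  have hGd : ∀ z ∈ ball w δ, HasDerivAt G (deriv F z / F z) z := by
    intro z hz
    simpa [hG] using ((hL z hz).sub_const (L w)).add_const (Complex.log (F w))
  have hGw : Complex.exp (G w) = F w := by
    simp [hG, Complex.exp_log (hne w hw)]
  have hexp : ∀ z ∈ ball w δ, F z * Complex.exp (-G z) = 1 := by
    have hder : ∀ z ∈ ball w δ, HasDerivAt (fun z => F z * Complex.exp (-G z)) 0 z := by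
      intro z hz
      have hFz : HasDerivAt F (deriv F z) z :=
        ((hF z hz).differentiableAt (isOpen_ball.mem_nhds hz)).hasDerivAt
      have h2 : HasDerivAt (fun z => F z * Complex.exp (-G z))
          (deriv F z * Complex.exp (-G z) +
            F z * (Complex.exp (-G z) * -(deriv F z / F z))) z :=
        hFz.mul ((hGd z hz).neg.cexp)
      have hz0 := hne z hz
      have h3 : deriv F z * Complex.exp (-G z) +
            F z * (Complex.exp (-G z) * -(deriv F z / F z)) = 0 := by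
        field_simp
        ring
      rwa [h3] at h2
    have hd : DifferentiableOn ℂ (fun z => F z * Complex.exp (-G z)) (ball w δ) :=
      fun z hz => (hder z hz).differentiableAt.differentiableWithinAt
    intro z hz
    have h3 := (convex_ball w δ).is_const_of_fderivWithin_eq_zero (𝕜 := ℂ) hd
      (fun x hx => by
        rw [fderivWithin_of_isOpen isOpen_ball hx]
        ext
        simp [(hder x hx).hasFDerivAt.fderiv]) hz hw
    have h4 : F z * Complex.exp (-G z) = F w * Complex.exp (-G w) := h3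
    rw [h4, Complex.exp_neg, hGw, mul_inv_cancel₀ (hne w hw)]
  have hre : ∀ z ∈ ball w δ, (G z).re = Real.log ‖F z‖ := by
    intro z hz
    have h4 : F z = Complex.exp (G z) := by
      have := hexp z hz
      rw [Complex.exp_neg] at this
      field_simp at this
      exact this
    rw [h4, Complex.norm_exp, Real.log_exp]
  have hpos : ∀ z ∈ ball w δ, 0 < (G z).re := fun z hz => by
    rw [hre z hz]
    exact Real.log_pos (h1 z hz)
  -- Cayley transform
  set Φ : ℂ → ℂ := fun z => (G z - G w) / (G z + (starRingEnd ℂ) (G w)) with hΦ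
  have hden : ∀ z ∈ ball w δ, G z + (starRingEnd ℂ) (G w) ≠ 0 := by
    intro z hz h
    have := congrArg Complex.re h
    simp at this
    linarith [hpos z hz, hpos w hw]
  have hGdiff : DifferentiableOn ℂ G (ball w δ) :=
    fun z hz => (hGd z hz).differentiableAt.differentiableWithinAt
  have hΦd : DifferentiableOn ℂ Φ (ball w δ) :=
    (hGdiff.sub_const _).div (hGdiff.add_const _) hden
  have hΦw : Φ w = 0 := by simp [hΦ]
  have hmaps : MapsTo Φ (ball w δ) (closedBall (Φ w) 1) := by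
    intro z hz
    rw [hΦw, mem_closedBall_zero_iff]
    simp only [hΦ]
    rw [norm_div, div_le_one (norm_pos_iff.2 (hden z hz))]
    rw [← sq_le_sq₀ (norm_nonneg _) (norm_nonneg _), Complex.sq_norm, Complex.sq_norm,
      Complex.normSq_apply, Complex.normSq_apply]
    simp
    nlinarith [hpos z hz, hpos w hw, mul_pos (hpos z hz) (hpos w hw)]
  have h5 := Complex.dist_le_div_mul_dist_of_mapsTo_ball hΦd hmaps hzδ
  rw [hΦw, dist_zero_right] at h5
  have h6 : ‖Φ z‖ ≤ 1 / 2 := by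
    refine h5.trans ?_
    rw [mem_ball] at hz
    rw [div_mul_eq_mul_div, one_mul, div_le_iff₀ hδ]
    linarith
  have h7 : ‖G z - G w‖ ≤ (1 / 2) * ‖G z + (starRingEnd ℂ) (G w)‖ := by
    have h8 : ‖Φ z‖ = ‖G z - G w‖ / ‖G z + (starRingEnd ℂ) (G w)‖ := by
      simp [hΦ]
    rw [h8, div_le_iff₀ (norm_pos_iff.2 (hden z hzδ))] at h6
    exact h6
  rw [← hre z hzδ, ← hre w hw]
  have hza := hpos z hzδ
  have hwa := hpos w hw
  have h9 : ‖G z - G w‖ ^ 2 ≤ (1 / 4) * ‖G z + (starRingEnd ℂ) (G w)‖ ^ 2 := by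
    have := mul_self_le_mul_self (norm_nonneg _) h7
    nlinarith
  rw [Complex.sq_norm, Complex.sq_norm, Complex.normSq_apply, Complex.normSq_apply] at h9
  simp at h9
  by_contra hlt
  push Not at hlt
  nlinarith [sq_nonneg ((G z).im - (G w).im), mul_pos hza hwa, sq_nonneg ((G z).re - 3 * (G w).re)]


/-- local comparison of escape rates -/
theorem local_harnack {f : ℂ → ℂ} (hf : Differentiable ℂ f) {z₀ : ℂ} (hz₀ : z₀ ∈ esc f) :
    ∃ ε > 0, ∀ z ∈ ball z₀ ε, ∀ w ∈ ball z₀ ε,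
      ∀ᶠ j in atTop, Real.log ‖f^[j] z‖ ≤ 3 * Real.log ‖f^[j] w‖ := by
  obtain ⟨W, hW, h⟩ := hz₀
  obtain ⟨ε, hε, hball⟩ := Metric.mem_nhds_iff.1 hW
  refine ⟨ε / 8, by positivity, fun z hz w hw => ?_⟩
  filter_upwards [h 1] with j hj
  have hsub : ball w (ε / 2) ⊆ ball z₀ ε := by
    intro x hx
    rw [mem_ball] at *
    linarith [dist_triangle x w z₀]
  refine log_norm_le_three_mul (δ := ε / 2) (hf.iterate j).differentiableOn
    (fun x hx => hj x (hball (hsub hx))) ?_
  rw [mem_ball] at *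
  linarith [dist_triangle z z₀ w, dist_comm z₀ w]

/-- Global comparison of escape rates on connected subsets of `esc f`. -/
theorem harnack_chain {f : ℂ → ℂ} (hf : Differentiable ℂ f) {U : Set ℂ}
    (hU : IsPreconnected U) (hUE : U ⊆ esc f) {p q : ℂ} (hp : p ∈ U) (hq : q ∈ U) :
    ∃ C : ℝ, 0 ≤ C ∧ ∀ᶠ j in atTop, Real.log ‖f^[j] q‖ ≤ C * Real.log ‖f^[j] p‖ := by
  set E : Set ℂ := {q | ∃ C : ℝ, 0 ≤ C ∧
    ∀ᶠ j in atTop, Real.log ‖f^[j] q‖ ≤ C * Real.log ‖f^[j] p‖} with hE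
  -- the interior of E will be clopen in U
  have key : U ⊆ interior E := by
    refine hU.subset_of_closure_inter_subset isOpen_interior ?_ ?_
    · obtain ⟨ε, hε, h⟩ := local_harnack hf (hUE hp)
      refine ⟨p, hp, mem_interior_iff_mem_nhds.2 (mem_of_superset (ball_mem_nhds p hε) ?_)⟩
      intro z hz
      exact ⟨3, by norm_num, h z hz p (mem_ball_self hε)⟩
    · rintro z ⟨hzc, hzU⟩
      obtain ⟨ε, hε, h⟩ := local_harnack hf (hUE hzU)
      obtain ⟨w, hwb, hwE⟩ := mem_closure_iff.1 hzc (ball z ε) isOpen_ball (mem_ball_self hε)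
      obtain ⟨C, hC, hCw⟩ := interior_subset hwE
      refine mem_interior_iff_mem_nhds.2 (mem_of_superset (ball_mem_nhds z hε) ?_)
      intro x hx
      refine ⟨3 * C, by positivity, ?_⟩
      filter_upwards [h x hx w hwb, hCw] with j h1 h2
      linarith
  have h := interior_subset (s := E) (key hq)
  exact h


/-- exponents -/
def mm (n : ℕ) : ℕ := 3 ^ (n + 3)

theorem mm_succ (n : ℕ) : mm (n + 1) = 3 * mm n := by
  simp only [mm]; ring

theorem mm_ge (n : ℕ) : 27 ≤ mm n := by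
  simp only [mm]
  calc 27 = 3 ^ 3 := by norm_num
    _ ≤ 3 ^ (n + 3) := Nat.pow_le_pow_right (by norm_num) (by omega)

theorem mm_pos (n : ℕ) : 0 < mm n := by have := mm_ge n; omega

/-- ratios of radii -/
noncomputable def RR : ℕ → ℝ
  | 0 => 10 ^ 6
  | n + 1 => (1000 / 1002) * (RR n) ^ (mm (n + 1))

/-- radii -/
noncomputable def rr : ℕ → ℝ
  | 0 => 1
  | n + 1 => RR n * rr n

theorem RR_succ (n : ℕ) : RR (n + 1) = (1000 / 1002) * (RR n) ^ (mm (n + 1)) := rfl
theorem rr_succ (n : ℕ) : rr (n + 1) = RR n * rr n := rfl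

theorem RR_ge (n : ℕ) : 10 ^ 6 ≤ RR n := by
  induction n with
  | zero => exact le_refl _
  | succ n ih =>
    rw [RR_succ]
    have h1 : (1 : ℝ) ≤ RR n := by linarith [ih]
    have h2 : (RR n) ^ 2 ≤ (RR n) ^ (mm (n + 1)) :=
      pow_le_pow_right₀ h1 (by have := mm_ge (n + 1); omega)
    nlinarith

theorem RR_pos (n : ℕ) : 0 < RR n := by linarith [RR_ge n]

theorem rr_pos (n : ℕ) : 0 < rr n := by
  induction n with
  | zero => simp [rr]
  | succ n ih => rw [rr_succ]; exact mul_pos (RR_pos n) ih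

theorem rr_ge_one (n : ℕ) : 1 ≤ rr n := by
  induction n with
  | zero => simp [rr]
  | succ n ih => rw [rr_succ]; nlinarith [RR_ge n]

theorem rr_succ_ge (n : ℕ) : 10 ^ 6 * rr n ≤ rr (n + 1) := by
  rw [rr_succ]
  exact mul_le_mul_of_nonneg_right (RR_ge n) (rr_pos n).le

theorem rr_mono : StrictMono rr := by
  refine strictMono_nat_of_lt_succ fun n => ?_
  have := rr_succ_ge n
  have := rr_pos n
  linarith

/-- moduli of the terms -/
noncomputable def PP (n : ℕ) (x : ℝ) : ℝ := 1002 * rr (n + 1) * (x / rr n) ^ (mm n)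
noncomputable def SS (n : ℕ) (x : ℝ) : ℝ := 2001 * rr (n + 1) * (x / rr n) ^ (2 * mm n)

theorem PP_nonneg (n : ℕ) {x : ℝ} (hx : 0 ≤ x) : 0 ≤ PP n x := by
  have := rr_pos n; have := rr_pos (n + 1)
  unfold PP; positivity

theorem SS_nonneg (n : ℕ) {x : ℝ} (hx : 0 ≤ x) : 0 ≤ SS n x := by
  have := rr_pos n; have := rr_pos (n + 1)
  unfold SS; positivity

theorem PP_mono (n : ℕ) {x y : ℝ} (hx : 0 ≤ x) (hxy : x ≤ y) : PP n x ≤ PP n y := by
  have := rr_pos n; have := rr_pos (n + 1)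
  unfold PP; gcongr

theorem SS_mono (n : ℕ) {x y : ℝ} (hx : 0 ≤ x) (hxy : x ≤ y) : SS n x ≤ SS n y := by
  have := rr_pos n; have := rr_pos (n + 1)
  unfold SS; gcongr

theorem SS_eq (n : ℕ) (x : ℝ) : SS n x = (2001 / 1002) * (x / rr n) ^ (mm n) * PP n x := by
  unfold SS PP
  rw [two_mul, pow_add]
  ring

theorem PP_succ (n : ℕ) (x : ℝ) : PP (n + 1) x = 1000 * rr (n + 1) * (x / rr n) ^ (3 * mm n) := by
  unfold PP
  rw [rr_succ (n + 1), RR_succ, rr_succ n, mm_succ]
  have h1 := (rr_pos n).ne'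
  have h2 := (RR_pos n).ne'
  rw [div_pow, div_pow, mul_pow]
  field_simp

theorem PP_succ_eq (n : ℕ) (x : ℝ) :
    PP (n + 1) x = (1000 / 2001) * (x / rr n) ^ (mm n) * SS n x := by
  rw [PP_succ]
  unfold SS
  rw [show 3 * mm n = mm n + 2 * mm n by ring, pow_add]
  ring

theorem pow_half_le {t : ℝ} (ht0 : 0 ≤ t) (ht : t ≤ 1 / 2) (n : ℕ) :
    t ^ (mm n) ≤ 1 / 10 ^ 8 := by
  calc t ^ (mm n) ≤ (1 / 2) ^ (mm n) := pow_le_pow_left₀ ht0 ht _
    _ ≤ (1 / 2) ^ 27 := pow_le_pow_of_le_one (by norm_num) (by norm_num) (mm_ge n)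
    _ ≤ 1 / 10 ^ 8 := by norm_num

theorem SS_le_of_le_half (n : ℕ) {x : ℝ} (hx : 0 ≤ x) (hxr : x ≤ rr n / 2) :
    SS n x ≤ (1 / 8) * PP n x := by
  have h0 := rr_pos n
  rw [SS_eq]
  have h1 : (x / rr n) ^ (mm n) ≤ 1 / 10 ^ 8 :=
    pow_half_le (by positivity) (by rw [div_le_iff₀ h0]; linarith) n
  have h2 := PP_nonneg n hx
  have h3 : 0 ≤ (x / rr n) ^ (mm n) := by positivity
  nlinarith

theorem PP_succ_le_of_le_half (n : ℕ) {x : ℝ} (hx : 0 ≤ x) (hxr : x ≤ rr n / 2) :
    PP (n + 1) x ≤ (1 / 8) * SS n x := by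
  have h0 := rr_pos n
  rw [PP_succ_eq]
  have h1 : (x / rr n) ^ (mm n) ≤ 1 / 10 ^ 8 :=
    pow_half_le (by positivity) (by rw [div_le_iff₀ h0]; linarith) n
  have h2 := SS_nonneg n hx
  have h3 : 0 ≤ (x / rr n) ^ (mm n) := by positivity
  nlinarith

theorem PP_le_of_ge (n : ℕ) {x : ℝ} (hxr : 2 * rr n ≤ x) :
    PP n x ≤ (1 / 8) * SS n x := by
  have h0 := rr_pos n
  have hx : 0 < x := by linarith
  have h1 : (rr n / x) ^ (mm n) ≤ 1 / 10 ^ 8 :=
    pow_half_le (by positivity) (by rw [div_le_iff₀ hx]; linarith) n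
  have h2 : (x / rr n) ^ (mm n) * (rr n / x) ^ (mm n) = 1 := by
    rw [← mul_pow]; field_simp; simp
  have h3 := PP_nonneg n hx.le
  have h4 : PP n x = (1002 / 2001) * (rr n / x) ^ (mm n) * SS n x := by
    rw [SS_eq]
    calc PP n x = 1 * PP n x := by ring
      _ = ((x / rr n) ^ (mm n) * (rr n / x) ^ (mm n)) * PP n x := by rw [h2]
      _ = _ := by ring
  rw [h4]
  have h5 := SS_nonneg n hx.le
  have h6 : 0 ≤ (rr n / x) ^ (mm n) := by positivity
  nlinarith

theorem SS_le_of_ge (n : ℕ) {x : ℝ} (hxr : 2 * rr n ≤ x) :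
    SS n x ≤ (1 / 8) * PP (n + 1) x := by
  have h0 := rr_pos n
  have hx : 0 < x := by linarith
  have h1 : (rr n / x) ^ (mm n) ≤ 1 / 10 ^ 8 :=
    pow_half_le (by positivity) (by rw [div_le_iff₀ hx]; linarith) n
  have h2 : (x / rr n) ^ (mm n) * (rr n / x) ^ (mm n) = 1 := by
    rw [← mul_pow]; field_simp; simp
  have h4 : SS n x = (2001 / 1000) * (rr n / x) ^ (mm n) * PP (n + 1) x := by
    rw [PP_succ_eq]
    calc SS n x = 1 * SS n x := by ring
      _ = ((x / rr n) ^ (mm n) * (rr n / x) ^ (mm n)) * SS n x := by rw [h2]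
      _ = _ := by ring
  rw [h4]
  have h5 := PP_nonneg (n + 1) hx.le
  have h6 : 0 ≤ (rr n / x) ^ (mm n) := by positivity
  nlinarith

attribute [local irreducible] mm RR rr PP SS

/-- majorant of the n-th block -/
noncomputable def AA (n : ℕ) (x : ℝ) : ℝ := PP n x + SS n x

theorem AA_nonneg (n : ℕ) {x : ℝ} (hx : 0 ≤ x) : 0 ≤ AA n x :=
  add_nonneg (PP_nonneg n hx) (SS_nonneg n hx)

theorem AA_succ_le (n : ℕ) {x : ℝ} (hx : 0 ≤ x) (hxr : x ≤ rr n / 2) :
    AA (n + 1) x ≤ (1 / 4) * SS n x := by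
  have h1 := PP_succ_le_of_le_half n hx hxr
  have h2 : x ≤ rr (n + 1) / 2 := by
    have := rr_mono.monotone (Nat.le_succ n)
    simp only [Nat.succ_eq_add_one] at this
    linarith
  have h3 := SS_le_of_le_half (n + 1) hx h2
  have h4 := SS_nonneg n hx
  unfold AA
  linarith

theorem AA_add_le (n k : ℕ) {x : ℝ} (hx : 0 ≤ x) (hxr : x ≤ rr n / 2) :
    AA (k + n) x ≤ AA n x * (1 / 4) ^ k := by
  induction k with
  | zero => simp
  | succ k ih =>
    have h2 : x ≤ rr (k + n) / 2 := by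
      have := rr_mono.monotone (show n ≤ k + n by omega)
      linarith
    have h3 := AA_succ_le (k + n) hx h2
    have h4 := PP_nonneg (k + n) hx
    have h5 : SS (k + n) x ≤ AA (k + n) x := by unfold AA; linarith
    rw [show k + 1 + n = k + n + 1 by ring, pow_succ]
    calc AA (k + n + 1) x ≤ (1 / 4) * SS (k + n) x := h3
      _ ≤ (1 / 4) * (AA n x * (1 / 4) ^ k) := by linarith
      _ = _ := by ring

theorem tendsto_rr : Tendsto rr atTop atTop := by
  have h : ∀ n : ℕ, (n : ℝ) ≤ rr n := by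
    intro n
    induction n with
    | zero => simpa using (rr_pos 0).le
    | succ n ih =>
      have := rr_succ_ge n
      have := rr_ge_one n
      push_cast
      linarith
  exact tendsto_atTop_mono h tendsto_natCast_atTop_atTop

theorem summable_AA {x : ℝ} (hx : 0 ≤ x) : Summable (fun n => AA n x) := by
  obtain ⟨n, hn⟩ := (tendsto_rr.eventually (eventually_ge_atTop (2 * x))).exists
  rw [← summable_nat_add_iff n]
  refine Summable.of_nonneg_of_le (fun k => AA_nonneg _ hx)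
    (fun k => AA_add_le n k hx (by linarith)) ?_
  exact (summable_geometric_of_lt_one (by norm_num) (by norm_num)).mul_left _

theorem tsum_AA_le (n : ℕ) {x : ℝ} (hx : 0 ≤ x) (hxr : x ≤ rr n / 2) :
    ∑' k, AA (k + n) x ≤ (4 / 3) * AA n x := by
  have h1 : Summable (fun k => AA (k + n) x) := (summable_nat_add_iff n).2 (summable_AA hx)
  have h2 : Summable (fun k : ℕ => AA n x * (1 / 4 : ℝ) ^ k) :=
    (summable_geometric_of_lt_one (by norm_num) (by norm_num)).mul_left _
  calc ∑' k, AA (k + n) x ≤ ∑' k : ℕ, AA n x * (1 / 4 : ℝ) ^ k :=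
        h1.tsum_le_tsum (fun k => AA_add_le n k hx hxr) h2
    _ = (4 / 3) * AA n x := by
        rw [tsum_mul_left, tsum_geometric_of_lt_one (by norm_num) (by norm_num)]
        ring


/-- head majorant -/
noncomputable def HH (n : ℕ) (x : ℝ) : ℝ := ∑ k ∈ Finset.range n, AA k x

theorem HH_nonneg (n : ℕ) {x : ℝ} (hx : 0 ≤ x) : 0 ≤ HH n x :=
  Finset.sum_nonneg fun k _ => AA_nonneg k hx

theorem AA_mono (n : ℕ) {x y : ℝ} (hx : 0 ≤ x) (hxy : x ≤ y) : AA n x ≤ AA n y :=
  add_le_add (PP_mono n hx hxy) (SS_mono n hx hxy)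

theorem HH_mono (n : ℕ) {x y : ℝ} (hx : 0 ≤ x) (hxy : x ≤ y) : HH n x ≤ HH n y :=
  Finset.sum_le_sum fun k _ => AA_mono k hx hxy

theorem HH_le (n : ℕ) {x : ℝ} (hxr : 2 * rr n ≤ x) : HH (n + 1) x ≤ 2 * SS n x := by
  induction n with
  | zero =>
    have h1 := PP_le_of_ge 0 hxr
    have h0 := rr_pos 0
    have h2 := SS_nonneg 0 (x := x) (by linarith)
    simp only [HH, Finset.sum_range_succ, Finset.sum_range_zero, AA]
    linarith
  | succ n ih =>
    have h0 := rr_pos (n + 1)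
    have hx : 0 ≤ x := by linarith
    have h3 : 2 * rr n ≤ x := by
      have := rr_mono.monotone (Nat.le_succ n)
      simp only [Nat.succ_eq_add_one] at this
      linarith
    have h1 := ih h3
    have h2 := SS_le_of_ge n h3
    have h4 := PP_le_of_ge (n + 1) hxr
    have h5 := SS_nonneg (n + 1) hx
    have h6 := PP_nonneg (n + 1) hx
    have h7 : HH (n + 1 + 1) x = HH (n + 1) x + AA (n + 1) x := by
      unfold HH; rw [Finset.sum_range_succ]
    rw [h7]
    unfold AA
    linarith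

/-- the complex terms -/
noncomputable def pp (n : ℕ) (z : ℂ) : ℂ := 1002 * (rr (n + 1) : ℂ) * (z / rr n) ^ (mm n)
noncomputable def ss (n : ℕ) (z : ℂ) : ℂ := 2001 * (rr (n + 1) : ℂ) * (z / rr n) ^ (2 * mm n)

theorem norm_pp (n : ℕ) (z : ℂ) : ‖pp n z‖ = PP n ‖z‖ := by
  unfold pp PP
  rw [norm_mul, norm_mul, norm_pow, norm_div, Complex.norm_real, Complex.norm_real,
    Real.norm_of_nonneg (rr_pos _).le, Real.norm_of_nonneg (rr_pos _).le]
  norm_num

theorem norm_ss (n : ℕ) (z : ℂ) : ‖ss n z‖ = SS n ‖z‖ := by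
  unfold ss SS
  rw [norm_mul, norm_mul, norm_pow, norm_div, Complex.norm_real, Complex.norm_real,
    Real.norm_of_nonneg (rr_pos _).le, Real.norm_of_nonneg (rr_pos _).le]
  norm_num

theorem pp_succ (n : ℕ) (z : ℂ) : pp (n + 1) z = 1000 * (rr (n + 1) : ℂ) * (z / rr n) ^ (3 * mm n) := by
  unfold pp
  rw [rr_succ (n + 1), RR_succ, rr_succ n, mm_succ]
  have h1 : (rr n : ℂ) ≠ 0 := by exact_mod_cast (rr_pos n).ne'
  have h2 : (RR n : ℂ) ≠ 0 := by exact_mod_cast (RR_pos n).ne'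
  push_cast
  rw [div_pow, div_pow, mul_pow]
  field_simp

attribute [local irreducible] pp ss

theorem norm_term_le (n : ℕ) (z : ℂ) : ‖pp n z - ss n z‖ ≤ AA n ‖z‖ := by
  refine (norm_sub_le _ _).trans ?_
  rw [norm_pp, norm_ss]
  rfl

/-- the entire function -/
noncomputable def ff (z : ℂ) : ℂ := ∑' n, (pp n z - ss n z)

theorem summable_term (z : ℂ) : Summable (fun n => pp n z - ss n z) :=
  Summable.of_norm_bounded (summable_AA (norm_nonneg z)) (fun n => norm_term_le n z)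

theorem differentiable_pp (n : ℕ) : Differentiable ℂ (pp n) := by
  unfold pp; fun_prop

theorem differentiable_ss (n : ℕ) : Differentiable ℂ (ss n) := by
  unfold ss; fun_prop

theorem differentiable_ff : Differentiable ℂ ff := by
  intro z
  have h : DifferentiableOn ℂ ff (ball 0 (‖z‖ + 1)) := by
    refine differentiableOn_tsum_of_summable_norm
      (summable_AA (x := ‖z‖ + 1) (by positivity))
      (fun n => ((differentiable_pp n).sub (differentiable_ss n)).differentiableOn)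
      isOpen_ball (fun n w hw => ?_)
    refine (norm_term_le n w).trans (AA_mono n (norm_nonneg w) ?_)
    rw [mem_ball_zero_iff] at hw
    exact hw.le
  exact (h z (by simp)).differentiableAt (isOpen_ball.mem_nhds (by simp))

/-- decomposition of ff -/
theorem ff_approx (n : ℕ) {z : ℂ} (hz : ‖z‖ ≤ rr (n + 1) / 2) :
    ‖ff z - (pp n z - ss n z + pp (n + 1) z)‖ ≤ HH n ‖z‖ + 2 * SS (n + 1) ‖z‖ := by
  have hx := norm_nonneg z
  have h1 : ff z = ∑ k ∈ Finset.range (n + 2), (pp k z - ss k z) +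
      ∑' k, (pp (k + (n + 2)) z - ss (k + (n + 2)) z) := by
    have h := (summable_term z).sum_add_tsum_nat_add (n + 2)
    rw [h]
    rfl
  have h2 : ‖∑' k, (pp (k + (n + 2)) z - ss (k + (n + 2)) z)‖ ≤ (1 / 3) * SS (n + 1) ‖z‖ := by
    have h2a : Summable (fun k => AA (k + (n + 2)) ‖z‖) :=
      (summable_nat_add_iff (f := fun k => AA k ‖z‖) (n + 2)).2 (summable_AA hx)
    have h2b : ‖z‖ ≤ rr (n + 2) / 2 := by
      have := rr_mono.monotone (show n + 1 ≤ n + 2 by omega)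
      linarith
    calc ‖∑' k, (pp (k + (n + 2)) z - ss (k + (n + 2)) z)‖
        ≤ ∑' k, AA (k + (n + 2)) ‖z‖ :=
          tsum_of_norm_bounded h2a.hasSum (fun k => norm_term_le _ z)
      _ ≤ (4 / 3) * AA (n + 2) ‖z‖ := tsum_AA_le (n + 2) hx h2b
      _ ≤ (4 / 3) * ((1 / 4) * SS (n + 1) ‖z‖) := by
          have := AA_succ_le (n + 1) hx hz
          linarith
      _ = _ := by ring
  have h3 : ‖∑ k ∈ Finset.range n, (pp k z - ss k z)‖ ≤ HH n ‖z‖ :=
    (norm_sum_le _ _).trans (Finset.sum_le_sum fun k _ => norm_term_le k z)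
  have h4 : ff z - (pp n z - ss n z + pp (n + 1) z) =
      ∑ k ∈ Finset.range n, (pp k z - ss k z) + (-ss (n + 1) z) +
        ∑' k, (pp (k + (n + 2)) z - ss (k + (n + 2)) z) := by
    rw [h1, Finset.sum_range_succ, Finset.sum_range_succ]
    ring
  rw [h4]
  have h5 : ‖-ss (n + 1) z‖ = SS (n + 1) ‖z‖ := by rw [norm_neg, norm_ss]
  have h6 := SS_nonneg (n + 1) hx
  calc _ ≤ ‖∑ k ∈ Finset.range n, (pp k z - ss k z) + (-ss (n + 1) z)‖ + 
        ‖∑' k, (pp (k + (n + 2)) z - ss (k + (n + 2)) z)‖ := norm_add_le _ _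
    _ ≤ (‖∑ k ∈ Finset.range n, (pp k z - ss k z)‖ + ‖-ss (n + 1) z‖) +
        ‖∑' k, (pp (k + (n + 2)) z - ss (k + (n + 2)) z)‖ := by
          gcongr; exact norm_add_le _ _
    _ ≤ _ := by rw [h5]; linarith

theorem ff_approx' (n : ℕ) {z : ℂ} (hz : ‖z‖ ≤ rr (n + 1) / 2) :
    ‖ff z - pp (n + 1) z‖ ≤ HH (n + 1) ‖z‖ + 2 * SS (n + 1) ‖z‖ := by
  have h1 := ff_approx n hz
  have h2 : ff z - pp (n + 1) z = (ff z - (pp n z - ss n z + pp (n + 1) z)) + (pp n z - ss n z) := by
    ring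
  rw [h2]
  have h3 : HH (n + 1) ‖z‖ = HH n ‖z‖ + AA n ‖z‖ := by
    unfold HH; rw [Finset.sum_range_succ]
  rw [h3]
  have h4 := norm_term_le n z
  linarith [norm_add_le (ff z - (pp n z - ss n z + pp (n + 1) z)) (pp n z - ss n z)]

theorem annulus_bound (n : ℕ) {x : ℝ} (h1 : 2 * rr n ≤ x) (h2 : x ≤ rr (n + 1) / 2) :
    HH (n + 1) x + 2 * SS (n + 1) x ≤ (1 / 2) * PP (n + 1) x := by
  have h0 := rr_pos n
  have hx : 0 ≤ x := by linarith
  have h3 := HH_le n h1
  have h4 := SS_le_of_ge n h1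
  have h5 := SS_le_of_le_half (n + 1) hx h2
  have h6 := PP_nonneg (n + 1) hx
  linarith

/-- annuli -/
def BB (n : ℕ) : Set ℂ := {z | 2 * rr n < ‖z‖ ∧ ‖z‖ < rr (n + 1) / 2}

theorem PP_upper (n : ℕ) {x : ℝ} (hx : 0 ≤ x) (h2 : x ≤ rr (n + 1) / 2) :
    (3 / 2) * PP (n + 1) x < rr (n + 2) / 2 := by
  have h0 := rr_pos (n + 1)
  have h1 := rr_pos (n + 2)
  unfold PP
  have h3 : (x / rr (n + 1)) ^ (mm (n + 1)) ≤ 1 / 10 ^ 8 :=
    pow_half_le (by positivity) (by rw [div_le_iff₀ h0]; linarith) (n + 1)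
  have h4 : 0 ≤ (x / rr (n + 1)) ^ (mm (n + 1)) := by positivity
  rw [show n + 1 + 1 = n + 2 by ring]
  nlinarith

theorem ff_upper (n : ℕ) {z : ℂ} (hz : ‖z‖ < rr (n + 1) / 2) : ‖ff z‖ < rr (n + 2) / 2 := by
  have hx := norm_nonneg z
  have h0 := rr_pos n
  set y := max ‖z‖ (2 * rr n) with hy
  have hy1 : ‖z‖ ≤ y := le_max_left _ _
  have hy2 : 2 * rr n ≤ y := le_max_right _ _
  have hy3 : y ≤ rr (n + 1) / 2 := by
    refine max_le hz.le ?_
    have := rr_succ_ge n
    linarith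
  have h1 := ff_approx' n hz.le
  have h2 := annulus_bound n hy2 hy3
  have h3 := PP_upper n (hx.trans hy1) hy3
  have h4 := HH_mono (n + 1) hx hy1
  have h5 := SS_mono (n + 1) hx hy1
  have h6 := PP_mono (n + 1) hx hy1
  have h7 : ‖ff z‖ ≤ ‖ff z - pp (n + 1) z‖ + ‖pp (n + 1) z‖ := by
    have := norm_add_le (ff z - pp (n + 1) z) (pp (n + 1) z)
    simpa using this
  rw [norm_pp] at h7
  linarith

theorem ff_lower_BB (n : ℕ) {z : ℂ} (hz : z ∈ BB n) :
    rr (n + 1) * (500 * (‖z‖ / rr n) ^ (mm (n + 1))) ≤ ‖ff z‖ := by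
  obtain ⟨hz1, hz2⟩ := hz
  have h1 := ff_approx' n hz2.le
  have h2 := annulus_bound n hz1.le hz2.le
  have h3 : ‖pp (n + 1) z‖ ≤ ‖ff z - pp (n + 1) z‖ + ‖ff z‖ := by
    have := norm_sub_le (ff z) (ff z - pp (n + 1) z)
    simp at this
    linarith
  rw [norm_pp] at h3
  have h4 : PP (n + 1) ‖z‖ = 1000 * rr (n + 1) * (‖z‖ / rr n) ^ (mm (n + 1)) := by
    rw [PP_succ, mm_succ]
  rw [h4] at h3 h2
  linarith

theorem one_le_div_of_BB (n : ℕ) {z : ℂ} (hz : z ∈ BB n) : 2 ≤ ‖z‖ / rr n := by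
  rw [le_div_iff₀ (rr_pos n)]
  exact hz.1.le

theorem BB_maps (n : ℕ) {z : ℂ} (hz : z ∈ BB n) : ff z ∈ BB (n + 1) := by
  refine ⟨?_, ff_upper n hz.2⟩
  have h1 := ff_lower_BB n hz
  have h2 : 1 ≤ (‖z‖ / rr n) ^ (mm (n + 1)) :=
    one_le_pow₀ (by linarith [one_le_div_of_BB n hz])
  have h3 := rr_pos (n + 1)
  nlinarith

theorem BB_growth (n : ℕ) {z : ℂ} (hz : z ∈ BB n) :
    (‖z‖ / rr n) ^ (mm (n + 1)) ≤ ‖ff z‖ / rr (n + 1) := by
  have h1 := ff_lower_BB n hz
  rw [le_div_iff₀ (rr_pos (n + 1))]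
  have h2 : 0 ≤ (‖z‖ / rr n) ^ (mm (n + 1)) := by
    have := rr_pos n
    positivity
  have h3 := rr_pos (n + 1)
  nlinarith [mul_nonneg h3.le h2]


noncomputable def TT3 (v : ℂ) : ℂ := v * (1 - (v - 1) + 1000 * (v - 1) ^ 2)

noncomputable def dd (n : ℕ) : ℝ := 1 / (10 ^ 6 * (mm n : ℝ) ^ 2)

theorem mm_cast_pos (n : ℕ) : (0 : ℝ) < mm n := by exact_mod_cast mm_pos n
theorem mm_cast_ge (n : ℕ) : (27 : ℝ) ≤ mm n := by exact_mod_cast mm_ge n

theorem dd_pos (n : ℕ) : 0 < dd n := by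
  have := mm_cast_pos n
  unfold dd; positivity

theorem dd_le (n : ℕ) : dd n ≤ 1 / 10 ^ 6 := by
  have := mm_cast_ge n
  unfold dd
  rw [div_le_div_iff₀ (by positivity) (by positivity)]
  nlinarith

theorem small_pow {M : ℕ} (hM : 27 ≤ M) {t : ℝ} (ht0 : 0 ≤ t) (ht : t ≤ 1 / 10 ^ 5) :
    t ^ M ≤ 1 / (10 ^ 20 * (M : ℝ) ^ 2) := by
  have hMr : (0 : ℝ) < M := by exact_mod_cast (by omega : 0 < M)
  have h1 : t ^ M ≤ ((1 / 10 ^ 4 : ℝ)) ^ M * (1 / 10 : ℝ) ^ M := by
    rw [← mul_pow]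
    exact pow_le_pow_left₀ ht0 (ht.trans (by norm_num)) _
  have h2 : ((1 / 10 ^ 4 : ℝ)) ^ M ≤ 1 / 10 ^ 20 := by
    calc ((1 / 10 ^ 4 : ℝ)) ^ M ≤ (1 / 10 ^ 4 : ℝ) ^ 5 :=
          pow_le_pow_of_le_one (by norm_num) (by norm_num) (by omega)
      _ = 1 / 10 ^ 20 := by norm_num
  have h3 : (M : ℝ) ^ 2 ≤ 10 ^ M := by
    have h4 : (M : ℝ) ≤ 2 ^ M := by exact_mod_cast (Nat.lt_two_pow_self (n := M)).le
    calc (M : ℝ) ^ 2 ≤ ((2 : ℝ) ^ M) ^ 2 := pow_le_pow_left₀ hMr.le h4 2
      _ = 4 ^ M := by rw [← pow_mul, mul_comm, pow_mul]; norm_num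
      _ ≤ 10 ^ M := pow_le_pow_left₀ (by norm_num) (by norm_num) _
  have h5 : (1 / 10 : ℝ) ^ M ≤ 1 / (M : ℝ) ^ 2 := by
    rw [div_pow, one_pow]
    exact one_div_le_one_div_of_le (by positivity) h3
  calc t ^ M ≤ ((1 / 10 ^ 4 : ℝ)) ^ M * (1 / 10 : ℝ) ^ M := h1
    _ ≤ (1 / 10 ^ 20) * (1 / (M : ℝ) ^ 2) := by gcongr
    _ = _ := by field_simp

theorem nine_div_RR (n : ℕ) : 9 / RR n ≤ 1 / 10 ^ 5 := by
  have h := RR_ge n
  rw [div_le_div_iff₀ (RR_pos n) (by positivity)]
  linarith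

theorem ring_upper (n : ℕ) : 2 * SS (n + 1) (3 * rr n) ≤ rr (n + 1) * (dd (n + 1) / 4) := by
  have h0 := rr_pos n
  have h1 := rr_pos (n + 1)
  have hR := RR_pos n
  have hM := mm_cast_pos (n + 1)
  have h2 : SS (n + 1) (3 * rr n) =
      2001 * (1000 / 1002) * rr (n + 1) * (9 / RR n) ^ (mm (n + 1)) := by
    unfold SS
    rw [rr_succ (n + 1), RR_succ, rr_succ n]
    have h3 : 3 * rr n / (RR n * rr n) = 3 / RR n := by field_simp
    rw [h3, two_mul, pow_add]
    have h4 : (9 / RR n) ^ (mm (n + 1)) = (RR n) ^ (mm (n + 1)) * ((3 / RR n) ^ (mm (n + 1)) *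
        (3 / RR n) ^ (mm (n + 1))) := by
      rw [← mul_pow, ← mul_pow]
      congr 1
      field_simp
      norm_num
    rw [h4]
    ring
  have h5 := small_pow (mm_ge (n + 1)) (t := 9 / RR n) (by positivity) (nine_div_RR n)
  rw [h2]
  unfold dd
  calc 2 * (2001 * (1000 / 1002) * rr (n + 1) * (9 / RR n) ^ (mm (n + 1)))
      ≤ 2 * (2001 * (1000 / 1002) * rr (n + 1) * (1 / (10 ^ 20 * (mm (n + 1) : ℝ) ^ 2))) := by
        gcongr
    _ = rr (n + 1) * ((2 * 2001 * (1000 / 1002) / 10 ^ 20) / (mm (n + 1) : ℝ) ^ 2) := by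
        field_simp
    _ ≤ rr (n + 1) * ((1 / 10 ^ 6 / 4) / (mm (n + 1) : ℝ) ^ 2) :=
        mul_le_mul_of_nonneg_left
          (div_le_div_of_nonneg_right (by norm_num) (by positivity)) h1.le
    _ = _ := by field_simp

theorem ring_head (n : ℕ) : HH n (3 * rr n) ≤ rr (n + 1) * (dd (n + 1) / 4) := by
  cases n with
  | zero =>
    have := rr_pos 1
    have := dd_pos 1
    simp only [HH, Finset.range_zero, Finset.sum_empty]
    positivity
  | succ k =>
    have h0 := rr_pos k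
    have h1 := rr_pos (k + 1)
    have h1' := rr_pos (k + 2)
    have hR := RR_pos k
    have hM := mm_cast_pos k
    have h2 : 2 * rr k ≤ 3 * rr (k + 1) := by
      have := rr_succ_ge k
      linarith
    have h3 := HH_le k h2
    have h4 : SS k (3 * rr (k + 1)) = 2001 * (1002 / 1000) * rr (k + 2) * (9 / RR k) ^ (mm k) := by
      unfold SS
      rw [rr_succ (k + 1), RR_succ, rr_succ k, mm_succ]
      have h5 : 3 * (RR k * rr k) / rr k = 3 * RR k := by field_simp
      rw [h5]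
      have h6 : (RR k) ^ (3 * mm k) * (9 / RR k) ^ (mm k) = (3 * RR k) ^ (2 * mm k) := by
        rw [pow_mul, pow_mul, ← mul_pow]
        congr 1
        field_simp
        norm_num
      rw [← h6]
      ring
    have h5 := small_pow (mm_ge k) (t := 9 / RR k) (by positivity) (nine_div_RR k)
    have h6 : (mm (k + 2) : ℝ) = 9 * mm k := by
      rw [mm_succ, mm_succ]; push_cast; ring
    rw [h4] at h3
    refine h3.trans ?_
    unfold dd
    rw [show k + 1 + 1 = k + 2 by ring, h6]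
    calc 2 * (2001 * (1002 / 1000) * rr (k + 2) * (9 / RR k) ^ (mm k))
        ≤ 2 * (2001 * (1002 / 1000) * rr (k + 2) * (1 / (10 ^ 20 * (mm k : ℝ) ^ 2))) := by
          gcongr
      _ = rr (k + 2) * ((2 * 2001 * (1002 / 1000) / 10 ^ 20) / (mm k : ℝ) ^ 2) := by
          field_simp
      _ ≤ rr (k + 2) * ((1 / 10 ^ 6 / 81 / 4) / (mm k : ℝ) ^ 2) :=
          mul_le_mul_of_nonneg_left
            (div_le_div_of_nonneg_right (by norm_num) (by positivity)) h1'.le
      _ = _ := by field_simp; norm_num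

theorem ff_ring (n : ℕ) {z : ℂ} (hz : ‖z‖ ≤ 3 * rr n) :
    ‖ff z - rr (n + 1) * TT3 ((z / rr n) ^ (mm n))‖ ≤ rr (n + 1) * (dd (n + 1) / 2) := by
  have h0 := rr_pos n
  have h1 : pp n z - ss n z + pp (n + 1) z = rr (n + 1) * TT3 ((z / rr n) ^ (mm n)) := by
    rw [pp_succ]
    unfold pp ss TT3
    rw [mul_comm 2, mul_comm 3, pow_mul, pow_mul]
    ring
  rw [← h1]
  have h2 : ‖z‖ ≤ rr (n + 1) / 2 := by
    have := rr_succ_ge n
    linarith
  refine (ff_approx n h2).trans ?_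
  have h3 := HH_mono n (norm_nonneg z) hz
  have h4 := SS_mono (n + 1) (norm_nonneg z) hz
  have h5 := ring_head n
  have h6 := ring_upper n
  linarith

theorem one_add_pow_sub (m : ℕ) (w : ℂ) :
    ‖(1 + w) ^ m - 1 - m * w‖ ≤ (1 + ‖w‖) ^ m - 1 - m * ‖w‖ := by
  induction m with
  | zero => simp
  | succ m ih =>
    have h1 : (1 + w) ^ (m + 1) - 1 - ((m + 1 : ℕ) : ℂ) * w =
        ((1 + w) ^ m - 1 - m * w) * (1 + w) + m * w ^ 2 := by
      push_cast; ring
    have h2 : ‖1 + w‖ ≤ 1 + ‖w‖ := by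
      have := norm_add_le (1 : ℂ) w
      simpa using this
    have h3 : 0 ≤ (1 + ‖w‖) ^ m - 1 - m * ‖w‖ := (norm_nonneg _).trans ih
    rw [h1]
    calc ‖((1 + w) ^ m - 1 - m * w) * (1 + w) + m * w ^ 2‖
        ≤ ‖((1 + w) ^ m - 1 - m * w) * (1 + w)‖ + ‖(m : ℂ) * w ^ 2‖ := norm_add_le _ _
      _ = ‖(1 + w) ^ m - 1 - m * w‖ * ‖1 + w‖ + m * ‖w‖ ^ 2 := by
          rw [norm_mul, norm_mul, norm_pow, Complex.norm_natCast]
      _ ≤ ((1 + ‖w‖) ^ m - 1 - m * ‖w‖) * (1 + ‖w‖) + m * ‖w‖ ^ 2 := by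
          gcongr
      _ = _ := by push_cast; ring

theorem one_add_pow_le_exp (m : ℕ) {t : ℝ} (ht : 0 ≤ t) : (1 + t) ^ m ≤ Real.exp (m * t) := by
  have h := Real.add_one_le_exp t
  calc (1 + t) ^ m ≤ (Real.exp t) ^ m := pow_le_pow_left₀ (by linarith) (by linarith) m
    _ = Real.exp (m * t) := by rw [← Real.exp_nat_mul]

theorem exp_half_le : Real.exp (1 / 2) ≤ 1.65 := by
  have h1 : Real.exp (1 / 2) * Real.exp (1 / 2) = Real.exp 1 := by
    rw [← Real.exp_add]; norm_num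
  have h2 := Real.exp_one_lt_d9
  by_contra h
  push Not at h
  nlinarith

/-- the loop around the trap is mapped far out -/
theorem ff_loop (n : ℕ) {z : ℂ} (hz : ‖z - rr n‖ = rr n / (2 * mm n)) :
    2 * rr (n + 1) < ‖ff z‖ := by
  have h0 := rr_pos n
  have h1 := rr_pos (n + 1)
  have hM := mm_cast_ge n
  have hM0 := mm_cast_pos n
  have hrc : (rr n : ℂ) ≠ 0 := by exact_mod_cast h0.ne'
  set w : ℂ := (z - rr n) / rr n with hw
  have hw1 : ‖w‖ = 1 / (2 * mm n) := by
    rw [hw, norm_div, hz, Complex.norm_real, Real.norm_of_nonneg h0.le]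
    field_simp
  have hu : z / rr n = 1 + w := by rw [hw]; field_simp; ring
  have hmw : (mm n : ℝ) * ‖w‖ = 1 / 2 := by rw [hw1]; field_simp
  have hz3 : ‖z‖ ≤ 3 * rr n := by
    have h2 : z = (z - rr n) + rr n := by ring
    have h3 : ‖z‖ ≤ ‖z - rr n‖ + ‖(rr n : ℂ)‖ := by
      conv_lhs => rw [h2]
      exact norm_add_le _ _
    rw [hz, Complex.norm_real, Real.norm_of_nonneg h0.le] at h3
    have h4 : rr n / (2 * mm n) ≤ rr n := by
      rw [div_le_iff₀ (by positivity)]
      nlinarith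
    linarith
  have h2 := ff_ring n hz3
  rw [hu] at h2
  set v : ℂ := (1 + w) ^ (mm n) with hv
  have h3 : ‖v - 1 - mm n * w‖ ≤ 0.15 := by
    refine (one_add_pow_sub (mm n) w).trans ?_
    have h4 := one_add_pow_le_exp (mm n) (norm_nonneg w)
    rw [hmw] at h4
    rw [hmw]
    linarith [exp_half_le]
  have h4 : ‖(mm n : ℂ) * w‖ = 1 / 2 := by
    rw [norm_mul, Complex.norm_natCast, hmw]
  have h5 : ‖v - 1‖ ≤ 0.65 := by
    have : v - 1 = (v - 1 - mm n * w) + mm n * w := by ring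
    rw [this]
    refine (norm_add_le _ _).trans ?_
    rw [h4]; linarith
  have h6 : 0.35 ≤ ‖v - 1‖ := by
    have h7 : ‖(mm n : ℂ) * w‖ ≤ ‖v - 1‖ + ‖v - 1 - mm n * w‖ := by
      have := norm_sub_le (v - 1) (v - 1 - mm n * w)
      simpa using this
    rw [h4] at h7
    linarith
  have h7 : 0.35 ≤ ‖v‖ := by
    have h8 : ‖(1 : ℂ)‖ ≤ ‖v‖ + ‖v - 1‖ := by
      have := norm_sub_le v (v - 1)
      simpa using this
    rw [norm_one] at h8
    linarith
  have h8 : 100 ≤ ‖1 - (v - 1) + 1000 * (v - 1) ^ 2‖ := by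
    have h9 : ‖1000 * (v - 1) ^ 2‖ ≤ ‖1 - (v - 1) + 1000 * (v - 1) ^ 2‖ + ‖1 - (v - 1)‖ := by
      have := norm_sub_le (1 - (v - 1) + 1000 * (v - 1) ^ 2) (1 - (v - 1))
      simpa using this
    have h10 : ‖1 - (v - 1)‖ ≤ 1.65 := by
      have := norm_sub_le (1 : ℂ) (v - 1)
      rw [norm_one] at this
      linarith
    have h11 : ‖1000 * (v - 1) ^ 2‖ = 1000 * ‖v - 1‖ ^ 2 := by
      rw [norm_mul, norm_pow]; norm_num
    rw [h11] at h9
    nlinarith
  have h9 : 35 ≤ ‖TT3 v‖ := by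
    unfold TT3
    rw [norm_mul]
    nlinarith [norm_nonneg v]
  have h10 : ‖(rr (n + 1) : ℂ) * TT3 v‖ ≤ ‖ff z‖ + ‖ff z - rr (n + 1) * TT3 v‖ := by
    have := norm_sub_le (ff z) (ff z - rr (n + 1) * TT3 v)
    simpa using this
  rw [norm_mul, Complex.norm_real, Real.norm_of_nonneg h1.le] at h10
  have h11 := dd_le (n + 1)
  nlinarith

/-- the segment from the loop to the annulus is mapped far out -/
theorem ff_segment (n : ℕ) {x : ℝ} (hx1 : rr n * (1 + 1 / (2 * mm n)) ≤ x) (hx2 : x ≤ 3 * rr n) :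
    2 * rr (n + 1) < ‖ff (x : ℂ)‖ := by
  have h0 := rr_pos n
  have h1 := rr_pos (n + 1)
  have hM := mm_cast_ge n
  have hM0 := mm_cast_pos n
  have hx0 : 0 ≤ x := le_trans (by positivity) hx1
  have h2 := ff_ring n (z := (x : ℂ)) (by rwa [Complex.norm_real, Real.norm_of_nonneg hx0])
  set s : ℝ := (x / rr n) ^ (mm n) with hs
  have hs1 : 3 / 2 ≤ s := by
    have h3 : 1 + 1 / (2 * (mm n : ℝ)) ≤ x / rr n := by
      rw [le_div_iff₀ h0]; linarith
    calc (3 / 2 : ℝ) = 1 + mm n * (1 / (2 * (mm n : ℝ))) := by field_simp; norm_num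
      _ ≤ (1 + 1 / (2 * (mm n : ℝ))) ^ (mm n) :=
          one_add_mul_le_pow (by have : (0:ℝ) ≤ 1 / (2 * (mm n : ℝ)) := by positivity
                                 linarith) _
      _ ≤ s := pow_le_pow_left₀ (by positivity) h3 _
  have h3 : ((x : ℂ) / rr n) ^ (mm n) = (s : ℂ) := by
    rw [hs]; push_cast; rfl
  rw [h3] at h2
  have h4 : TT3 (s : ℂ) = ((s * (1 - (s - 1) + 1000 * (s - 1) ^ 2) : ℝ) : ℂ) := by
    unfold TT3; push_cast; ring
  have h5 : 35 ≤ ‖TT3 (s : ℂ)‖ := by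
    rw [h4, Complex.norm_real]
    refine le_trans ?_ (le_abs_self _)
    have h6 : 100 ≤ 1 - (s - 1) + 1000 * (s - 1) ^ 2 := by nlinarith
    nlinarith
  have h10 : ‖(rr (n + 1) : ℂ) * TT3 s‖ ≤ ‖ff x‖ + ‖ff x - rr (n + 1) * TT3 s‖ := by
    have := norm_sub_le (ff x) (ff x - rr (n + 1) * TT3 s)
    simpa using this
  rw [norm_mul, Complex.norm_real, Real.norm_of_nonneg h1.le] at h10
  have h11 := dd_le (n + 1)
  nlinarith

/-- the trap -/
theorem ff_trap (n : ℕ) {z : ℂ} (hz : ‖z - rr n‖ ≤ dd n * rr n) :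
    ‖ff z - rr (n + 1)‖ ≤ dd (n + 1) * rr (n + 1) := by
  have h0 := rr_pos n
  have h1 := rr_pos (n + 1)
  have hM := mm_cast_ge n
  have hM0 := mm_cast_pos n
  have hrc : (rr n : ℂ) ≠ 0 := by exact_mod_cast h0.ne'
  set w : ℂ := (z - rr n) / rr n with hw
  have hw1 : ‖w‖ ≤ dd n := by
    rw [hw, norm_div, Complex.norm_real, Real.norm_of_nonneg h0.le, div_le_iff₀ h0]
    exact hz
  have hu : z / rr n = 1 + w := by rw [hw]; field_simp; ring
  have hdl := dd_le n
  have hz3 : ‖z‖ ≤ 3 * rr n := by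
    have h2 : z = (z - rr n) + rr n := by ring
    have h3 : ‖z‖ ≤ ‖z - rr n‖ + ‖(rr n : ℂ)‖ := by
      conv_lhs => rw [h2]
      exact norm_add_le _ _
    rw [Complex.norm_real, Real.norm_of_nonneg h0.le] at h3
    nlinarith
  have h2 := ff_ring n hz3
  rw [hu] at h2
  set v : ℂ := (1 + w) ^ (mm n) with hv
  have hmw : (mm n : ℝ) * ‖w‖ ≤ 1 / (10 ^ 6 * mm n) := by
    calc (mm n : ℝ) * ‖w‖ ≤ mm n * dd n := by gcongr
      _ = 1 / (10 ^ 6 * mm n) := by unfold dd; field_simp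
  have hmw0 : 0 ≤ (mm n : ℝ) * ‖w‖ := by positivity
  have hmw1 : (mm n : ℝ) * ‖w‖ ≤ 1 := hmw.trans (by
    rw [div_le_one (by positivity)]; nlinarith)
  have h3 : ‖v - 1‖ ≤ 2 * (mm n * ‖w‖) := by
    have h4 : ‖v - 1 - mm n * w‖ ≤ (1 + ‖w‖) ^ (mm n) - 1 - mm n * ‖w‖ := one_add_pow_sub (mm n) w
    have h5 := one_add_pow_le_exp (mm n) (norm_nonneg w)
    have h6 : ‖v - 1‖ ≤ ‖v - 1 - mm n * w‖ + ‖(mm n : ℂ) * w‖ := by
      have := norm_add_le (v - 1 - mm n * w) (mm n * w)
      simpa using this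
    rw [norm_mul, Complex.norm_natCast] at h6
    have h7 := Real.abs_exp_sub_one_le (x := (mm n : ℝ) * ‖w‖) (by rwa [abs_of_nonneg hmw0])
    rw [abs_of_nonneg hmw0] at h7
    have h8 := le_abs_self (Real.exp ((mm n : ℝ) * ‖w‖) - 1)
    linarith
  have h4 : ‖v - 1‖ ≤ 2 / (10 ^ 6 * mm n) := by
    refine h3.trans ?_
    calc 2 * (mm n * ‖w‖) ≤ 2 * (1 / (10 ^ 6 * mm n)) := by gcongr
      _ = _ := by ring
  have h5 : TT3 v - 1 = 999 * (v - 1) ^ 2 + 1000 * (v - 1) ^ 3 := by
    unfold TT3; ring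
  have h6 : ‖TT3 v - 1‖ ≤ dd (n + 1) / 2 := by
    rw [h5]
    have h7 : ‖999 * (v - 1) ^ 2 + 1000 * (v - 1) ^ 3‖ ≤ 999 * ‖v - 1‖ ^ 2 + 1000 * ‖v - 1‖ ^ 3 := by
      refine (norm_add_le _ _).trans ?_
      rw [norm_mul, norm_mul, norm_pow, norm_pow]
      norm_num
    have h8 : ‖v - 1‖ ≤ 1 := h4.trans (by
      rw [div_le_one (by positivity)]; nlinarith)
    have h9 : ‖v - 1‖ ^ 3 ≤ ‖v - 1‖ ^ 2 := pow_le_pow_of_le_one (norm_nonneg _) h8 (by norm_num)
    have h10 : ‖v - 1‖ ^ 2 ≤ (2 / (10 ^ 6 * mm n)) ^ 2 := pow_le_pow_left₀ (norm_nonneg _) h4 2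
    have h11 : dd (n + 1) / 2 = (1 / (18 * 10 ^ 6)) / (mm n : ℝ) ^ 2 := by
      unfold dd
      rw [mm_succ]
      push_cast
      field_simp
      norm_num
    rw [h11]
    calc _ ≤ 999 * ‖v - 1‖ ^ 2 + 1000 * ‖v - 1‖ ^ 3 := h7
      _ ≤ 1999 * (2 / (10 ^ 6 * mm n)) ^ 2 := by linarith
      _ = (1999 * 4 / 10 ^ 12) / (mm n : ℝ) ^ 2 := by field_simp; norm_num
      _ ≤ _ := div_le_div_of_nonneg_right (by norm_num) (by positivity)
  have h7 : ff z - rr (n + 1) = (ff z - rr (n + 1) * TT3 v) + rr (n + 1) * (TT3 v - 1) := by ring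
  rw [h7]
  refine (norm_add_le _ _).trans ?_
  rw [norm_mul, Complex.norm_real, Real.norm_of_nonneg h1.le]
  nlinarith

theorem ff_zero : ff 0 = 0 := by
  unfold ff
  have h : ∀ n, pp n 0 - ss n 0 = 0 := by
    intro n
    unfold pp ss
    have := mm_pos n
    simp [this.ne']
  simp [h]


/-! ### growth of orbits -/

/-- product of the local degrees -/
def DD (m j : ℕ) : ℕ := ∏ l ∈ Finset.range j, mm (m + l + 1)

theorem DD_succ (m j : ℕ) : DD m (j + 1) = DD m j * mm (m + j + 1) := by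
  unfold DD; rw [Finset.prod_range_succ]

theorem DD_pos (m j : ℕ) : 0 < DD m j := Finset.prod_pos fun _ _ => mm_pos _

theorem iterate_mem_BB (m : ℕ) {q : ℂ} (hq : q ∈ BB m) (j : ℕ) :
    ff^[j] q ∈ BB (m + j) := by
  induction j with
  | zero => simpa using hq
  | succ j ih =>
    rw [Function.iterate_succ_apply']
    exact BB_maps (m + j) ih

theorem growth_BB (m : ℕ) {q : ℂ} (hq : q ∈ BB m) (j : ℕ) :
    (2 : ℝ) ^ (DD m j) ≤ ‖ff^[j] q‖ / rr (m + j) := by
  induction j with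
  | zero =>
    have := one_le_div_of_BB m hq
    simpa [DD] using this
  | succ j ih =>
    have h1 := BB_growth (m + j) (iterate_mem_BB m hq j)
    rw [Function.iterate_succ_apply', DD_succ, pow_mul]
    exact (pow_le_pow_left₀ (by positivity) ih _).trans h1

theorem RR_sq_le (k : ℕ) : RR k ^ 2 ≤ RR (k + 1) := by
  have h0 := RR_ge k
  rw [RR_succ]
  have h1 : RR k ^ 3 ≤ RR k ^ (mm (k + 1)) :=
    pow_le_pow_right₀ (by linarith) (by have := mm_ge (k + 1); omega)
  have h2 : RR k ^ 3 = RR k * RR k ^ 2 := by ring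
  have h3 : 0 ≤ RR k ^ 2 := by positivity
  nlinarith

theorem rr_succ_le (k : ℕ) : rr (k + 1) ≤ RR k ^ 2 := by
  induction k with
  | zero =>
    have h0 := RR_ge 0
    have h1 : rr 0 = 1 := by unfold rr; rfl
    rw [rr_succ, h1]
    nlinarith
  | succ k ih =>
    have h0 := RR_pos (k + 1)
    have h1 := RR_sq_le k
    rw [rr_succ (k + 1)]
    nlinarith

theorem RR_le_pow (m j : ℕ) : RR (m + j) ≤ RR m ^ (DD m j) := by
  induction j with
  | zero => simp [DD]
  | succ j ih =>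
    have h0 := RR_pos (m + j)
    rw [show m + (j + 1) = m + j + 1 by ring, RR_succ, DD_succ, pow_mul]
    have h1 : RR (m + j) ^ (mm (m + j + 1)) ≤ (RR m ^ (DD m j)) ^ (mm (m + j + 1)) :=
      pow_le_pow_left₀ h0.le ih _
    have h2 : 0 ≤ RR (m + j) ^ (mm (m + j + 1)) := by positivity
    linarith

theorem tendsto_mm : Tendsto (fun n => (mm n : ℝ)) atTop atTop := by
  have h : ∀ n : ℕ, (n : ℝ) ≤ mm n := by
    intro n
    have : n ≤ mm n := by
      induction n with
      | zero => omega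
      | succ n ih => rw [mm_succ]; have := mm_pos n; omega
    exact_mod_cast this
  exact tendsto_atTop_mono h tendsto_natCast_atTop_atTop

theorem no_comparison (m : ℕ) {p q : ℂ} (hq : q ∈ BB m)
    (hp : ∀ j, ‖ff^[j] p‖ ≤ 2 * rr (m + j)) {C : ℝ} (hC : 0 ≤ C)
    (h : ∀ᶠ j in atTop, Real.log ‖ff^[j] q‖ ≤ C * Real.log ‖ff^[j] p‖) : False := by
  set K : ℝ := Real.log 2 + 2 * Real.log (RR m) with hK
  have hlog2 : 0 < Real.log 2 := Real.log_pos (by norm_num)
  have hlogR : 0 ≤ Real.log (RR m) := Real.log_nonneg (by linarith [RR_ge m])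
  have hK0 : 0 ≤ K := by positivity
  have h1 : ∀ᶠ j in atTop, (mm (m + j + 1) : ℝ) * Real.log 2 ≤ C * K := by
    filter_upwards [(tendsto_add_atTop_nat 1).eventually h] with j hj
    have hD : (0 : ℝ) < DD m j := by exact_mod_cast DD_pos m j
    have hD1 : (1 : ℝ) ≤ DD m j := by exact_mod_cast DD_pos m j
    -- lower bound
    have h2 : (DD m j : ℝ) * mm (m + j + 1) * Real.log 2 ≤ Real.log ‖ff^[j + 1] q‖ := by
      have h3 := growth_BB m hq (j + 1)
      have h4 := rr_ge_one (m + (j + 1))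
      rw [le_div_iff₀ (rr_pos _)] at h3
      have h5 : (2 : ℝ) ^ (DD m (j + 1)) ≤ ‖ff^[j + 1] q‖ := by
        have : (0 : ℝ) < 2 ^ (DD m (j + 1)) := by positivity
        nlinarith
      have h6 := Real.log_le_log (by positivity) h5
      rw [Real.log_pow, DD_succ] at h6
      push_cast at h6
      exact h6
    -- upper bound
    have h3 : Real.log ‖ff^[j + 1] p‖ ≤ DD m j * K := by
      have h4 := hp (j + 1)
      have h5 : rr (m + (j + 1)) ≤ RR m ^ (2 * DD m j) := by
        calc rr (m + (j + 1)) ≤ RR (m + j) ^ 2 := rr_succ_le (m + j)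
          _ ≤ (RR m ^ (DD m j)) ^ 2 := pow_le_pow_left₀ (RR_pos _).le (RR_le_pow m j) 2
          _ = RR m ^ (2 * DD m j) := by rw [← pow_mul, mul_comm]
      rcases (norm_nonneg (ff^[j + 1] p)).eq_or_lt with h0 | h0
      · rw [← h0, Real.log_zero]; positivity
      · have h6 : Real.log ‖ff^[j + 1] p‖ ≤ Real.log (2 * RR m ^ (2 * DD m j)) :=
          Real.log_le_log h0 (h4.trans (by linarith))
        rw [Real.log_mul (by norm_num) (pow_pos (RR_pos m) _).ne', Real.log_pow] at h6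
        push_cast at h6
        rw [hK]
        nlinarith
    have h4 : (DD m j : ℝ) * mm (m + j + 1) * Real.log 2 ≤ C * (DD m j * K) :=
      h2.trans (hj.trans (mul_le_mul_of_nonneg_left h3 hC))
    have h5 : (DD m j : ℝ) * (mm (m + j + 1) * Real.log 2) ≤ DD m j * (C * K) := by
      linarith
    exact le_of_mul_le_mul_left h5 hD
  have h2 : Tendsto (fun j => (mm (m + j + 1) : ℝ) * Real.log 2) atTop atTop := by
    have h3 : Tendsto (fun j : ℕ => m + j + 1) atTop atTop := by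
      refine tendsto_atTop_mono (fun j => ?_) tendsto_id
      simp only [id]; omega
    exact (tendsto_mm.comp h3).atTop_mul_const hlog2
  obtain ⟨j, hj1, hj2⟩ := (h1.and (h2.eventually (eventually_gt_atTop (C * K)))).exists
  linarith

theorem natCast_le_RR (k : ℕ) : (k : ℝ) ≤ RR k := by
  induction k with
  | zero => simpa using (RR_pos 0).le
  | succ k ih =>
    have h1 := RR_sq_le k
    have h2 := RR_ge k
    push_cast
    nlinarith

theorem three_mem_BB (n : ℕ) : ((3 * rr n : ℝ) : ℂ) ∈ BB n := by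
  have h0 := rr_pos n
  have h1 := rr_succ_ge n
  refine ⟨?_, ?_⟩ <;> rw [Complex.norm_real, Real.norm_of_nonneg (by positivity)] <;> linarith

theorem ff_not_polynomial : ¬ ∃ p : Polynomial ℂ, ∀ z, ff z = p.eval z := by
  rintro ⟨p, hp⟩
  set N := p.natDegree with hN
  set A : ℝ := ∑ i ∈ Finset.range (N + 1), ‖p.coeff i‖ with hA
  have hA0 : 0 ≤ A := Finset.sum_nonneg fun _ _ => norm_nonneg _
  have hbound : ∀ z : ℂ, 1 ≤ ‖z‖ → ‖ff z‖ ≤ A * ‖z‖ ^ N := by
    intro z hz
    rw [hp z, Polynomial.eval_eq_sum_range, hA, Finset.sum_mul]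
    refine (norm_sum_le _ _).trans (Finset.sum_le_sum fun i hi => ?_)
    rw [norm_mul, norm_pow]
    have : i ≤ N := by have := Finset.mem_range.1 hi; omega
    exact mul_le_mul_of_nonneg_left (pow_le_pow_right₀ hz this) (norm_nonneg _)
  -- choose k large
  obtain ⟨k, hk⟩ := ((tendsto_mm.comp (tendsto_add_atTop_nat 1)).eventually
    (eventually_ge_atTop ((3 * N + 2 : ℕ) : ℝ))).and
      (eventually_ge_atTop (⌈A⌉₊)) |>.exists
  obtain ⟨hk1, hk2⟩ := hk
  have hk1' : 3 * N + 2 ≤ mm (k + 1) := by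
    have : ((3 * N + 2 : ℕ) : ℝ) ≤ (mm (k + 1) : ℝ) := hk1
    exact_mod_cast this
  have hAR : A ≤ RR k := (Nat.le_ceil A).trans (le_trans (by exact_mod_cast hk2) (natCast_le_RR k))
  have hR := RR_ge k
  have h0 := rr_ge_one (k + 1)
  have hz := three_mem_BB (k + 1)
  have h1 := ff_lower_BB (k + 1) hz
  have hnz : ‖((3 * rr (k + 1) : ℝ) : ℂ)‖ = 3 * rr (k + 1) := by
    rw [Complex.norm_real, Real.norm_of_nonneg (by linarith)]
  have h2 := hbound ((3 * rr (k + 1) : ℝ) : ℂ) (by rw [hnz]; linarith)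
  rw [hnz] at h1 h2
  have h3 : rr (k + 1 + 1) ≤ ‖ff ((3 * rr (k + 1) : ℝ) : ℂ)‖ := by
    refine le_trans ?_ h1
    have h4 : 1 ≤ (3 * rr (k + 1) / rr (k + 1)) ^ (mm (k + 1 + 1)) := by
      apply one_le_pow₀
      rw [le_div_iff₀ (rr_pos _)]
      linarith
    have := rr_pos (k + 1 + 1)
    nlinarith
  have h4 : (3 * rr (k + 1)) ^ N ≤ (RR k) ^ (3 * N) := by
    rw [pow_mul]
    apply pow_le_pow_left₀ (by linarith)
    have := rr_succ_le k
    nlinarith [sq_nonneg (RR k)]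
  have h5 : (1 / 2) * (RR k) ^ (3 * N + 2) ≤ RR (k + 1) := by
    rw [RR_succ]
    have h6 : (RR k) ^ (3 * N + 2) ≤ (RR k) ^ (mm (k + 1)) := pow_le_pow_right₀ (by linarith) hk1'
    have h7 : 0 ≤ (RR k) ^ (mm (k + 1)) := by positivity
    linarith
  have h6 : RR (k + 1) ≤ rr (k + 1 + 1) := by
    rw [rr_succ (k + 1)]
    have := RR_pos (k + 1)
    nlinarith
  have h7 : (1 / 2) * (RR k) ^ (3 * N + 2) ≤ RR k * (RR k) ^ (3 * N) := by
    calc (1 / 2) * (RR k) ^ (3 * N + 2) ≤ rr (k + 1 + 1) := h5.trans h6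
      _ ≤ A * (3 * rr (k + 1)) ^ N := h3.trans h2
      _ ≤ RR k * (RR k) ^ (3 * N) := by gcongr
  have h8 : 0 < (RR k) ^ (3 * N) := pow_pos (RR_pos k) _
  rw [pow_add] at h7
  have h9 : (1 / 2) * RR k ^ 2 ≤ RR k := by
    have : (1 / 2 * RR k ^ 2) * (RR k) ^ (3 * N) ≤ RR k * (RR k) ^ (3 * N) := by linarith
    exact le_of_mul_le_mul_right this h8
  nlinarith


/-! ### topology -/

theorem isOpen_BB (n : ℕ) : IsOpen (BB n) :=
  (isOpen_lt continuous_const continuous_norm).inter (isOpen_lt continuous_norm continuous_const)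

theorem isPreconnected_BB (n : ℕ) : IsPreconnected (BB n) := by
  have h : BB n = (fun p : ℝ × ℝ => (p.1 : ℂ) * Complex.exp (p.2 * Complex.I)) ''
      (Ioo (2 * rr n) (rr (n + 1) / 2) ×ˢ univ) := by
    ext z
    constructor
    · rintro ⟨h1, h2⟩
      exact ⟨(‖z‖, Complex.arg z), ⟨⟨h1, h2⟩, mem_univ _⟩, Complex.norm_mul_exp_arg_mul_I z⟩
    · rintro ⟨⟨r, θ⟩, ⟨⟨h1, h2⟩, -⟩, rfl⟩
      have h0 := rr_pos n
      have h3 : ‖(r : ℂ) * Complex.exp (θ * Complex.I)‖ = r := by
        rw [norm_mul, Complex.norm_exp_ofReal_mul_I, mul_one, Complex.norm_real,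
          Real.norm_of_nonneg (by simp only at h1; linarith)]
      simp only [BB, Set.mem_ofPred_eq, h3]
      exact ⟨h1, h2⟩
  rw [h]
  refine IsPreconnected.image ?_ _ (by fun_prop)
  exact isPreconnected_Ioo.prod isPreconnected_univ

theorem BB_subset_esc (n : ℕ) : BB n ⊆ esc ff := by
  intro z hz
  refine ⟨BB n, (isOpen_BB n).mem_nhds hz, fun M => ?_⟩
  have h1 : Tendsto (fun j => rr (n + j)) atTop atTop := by
    refine tendsto_rr.comp (tendsto_atTop_mono (fun j => ?_) tendsto_id)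
    simp only [id]; omega
  filter_upwards [h1.eventually (eventually_gt_atTop M)] with j hj w hw
  have h2 := (iterate_mem_BB n hw j).1
  have := rr_pos (n + j)
  linarith

theorem isOpenMap_ff : IsOpenMap ff := by
  have h1 : AnalyticOnNhd ℂ ff univ := fun z _ => differentiable_ff.analyticAt z
  rcases h1.is_constant_or_isOpenMap with ⟨w, hw⟩ | h
  · exfalso
    have h2 := hw 0
    have h3 := hw ((3 * rr 0 : ℝ) : ℂ)
    rw [ff_zero] at h2
    rw [← h2] at h3
    have h4 := (BB_maps 0 (three_mem_BB 0)).1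
    rw [h3] at h4
    have := rr_pos 1
    simp at h4
    linarith
  · exact h

theorem mem_esc_of_far (n : ℕ) {z : ℂ} (hz : ‖z‖ ≤ 3 * rr n) (h : 2 * rr (n + 1) < ‖ff z‖) :
    z ∈ esc ff := by
  refine esc_of_image_mem_esc differentiable_ff.continuous (BB_subset_esc (n + 1) ⟨h, ?_⟩)
  apply ff_upper
  have := rr_succ_ge n
  have := rr_pos n
  linarith

/-- the loop around `rr n` -/
def loopS (n : ℕ) : Set ℂ := sphere ((rr n : ℝ) : ℂ) (rr n / (2 * mm n))

/-- the segment -/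
def segS (n : ℕ) : Set ℂ :=
  (fun x : ℝ => (x : ℂ)) '' Icc (rr n * (1 + 1 / (2 * mm n))) (3 * rr n)

theorem loopS_radius_le (n : ℕ) : rr n / (2 * mm n) ≤ rr n / 54 := by
  have h0 := rr_pos n
  have hM := mm_cast_ge n
  gcongr
  linarith

theorem loopS_norm {n : ℕ} {z : ℂ} (hz : z ∈ loopS n) : ‖z‖ ≤ 3 * rr n := by
  have h0 := rr_pos n
  have h1 := loopS_radius_le n
  rw [loopS, mem_sphere_iff_norm] at hz
  have h3 : ‖z‖ ≤ ‖z - rr n‖ + ‖(rr n : ℂ)‖ := by
    have := norm_add_le (z - rr n) (rr n : ℂ)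
    simpa using this
  rw [hz, Complex.norm_real, Real.norm_of_nonneg h0.le] at h3
  linarith

theorem loopS_subset_esc (n : ℕ) : loopS n ⊆ esc ff := by
  intro z hz
  refine mem_esc_of_far n (loopS_norm hz) (ff_loop n ?_)
  rwa [loopS, mem_sphere_iff_norm] at hz

theorem segS_subset_esc (n : ℕ) : segS n ⊆ esc ff := by
  rintro _ ⟨x, ⟨hx1, hx2⟩, rfl⟩
  have h0 := rr_pos n
  have hM := mm_cast_pos n
  have hx0 : 0 ≤ x := le_trans (by positivity) hx1
  refine mem_esc_of_far n ?_ (ff_segment n hx1 hx2)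
  rwa [Complex.norm_real, Real.norm_of_nonneg hx0]

theorem isPreconnected_union (n : ℕ) : IsPreconnected (loopS n ∪ segS n ∪ BB n) := by
  have h0 := rr_pos n
  have hM := mm_cast_pos n
  have hMge := mm_cast_ge n
  have hle : rr n * (1 + 1 / (2 * mm n)) ≤ 3 * rr n := by
    have : 1 / (2 * (mm n : ℝ)) ≤ 1 := by rw [div_le_one (by positivity)]; linarith
    nlinarith
  have h1 : IsPreconnected (loopS n) := by
    refine (isConnected_sphere ?_ _ (by positivity)).isPreconnected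
    rw [Complex.rank_real_complex]
    norm_num
  have h2 : IsPreconnected (segS n) :=
    isPreconnected_Icc.image _ (by fun_prop)
  have hx1 : ((rr n * (1 + 1 / (2 * mm n)) : ℝ) : ℂ) ∈ loopS n := by
    rw [loopS, mem_sphere_iff_norm]
    rw [← Complex.ofReal_sub, Complex.norm_real]
    have : rr n * (1 + 1 / (2 * (mm n : ℝ))) - rr n = rr n / (2 * mm n) := by ring
    rw [this, Real.norm_of_nonneg (by positivity)]
  have hx2 : ((rr n * (1 + 1 / (2 * mm n)) : ℝ) : ℂ) ∈ segS n :=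
    ⟨_, ⟨le_refl _, hle⟩, rfl⟩
  have hx3 : ((3 * rr n : ℝ) : ℂ) ∈ segS n := ⟨_, ⟨hle, le_refl _⟩, rfl⟩
  have h3 : IsPreconnected (loopS n ∪ segS n) := h1.union _ hx1 hx2 h2
  exact h3.union _ (Or.inr hx3) (three_mem_BB n) (isPreconnected_BB n)

/-- the wandering domains -/
def UU (n : ℕ) : Set ℂ := connectedComponentIn (fatouSet ff) ((3 * rr n : ℝ) : ℂ)

theorem three_mem_fatou (n : ℕ) : ((3 * rr n : ℝ) : ℂ) ∈ fatouSet ff :=
  esc_subset_fatouSet differentiable_ff (BB_subset_esc n (three_mem_BB n))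

theorem three_mem_UU (n : ℕ) : ((3 * rr n : ℝ) : ℂ) ∈ UU n :=
  mem_connectedComponentIn (three_mem_fatou n)

theorem isOpen_UU (n : ℕ) : IsOpen (UU n) := (isOpen_fatouSet ff).connectedComponentIn

theorem isPreconnected_UU (n : ℕ) : IsPreconnected (UU n) := isPreconnected_connectedComponentIn

theorem UU_subset_fatou (n : ℕ) : UU n ⊆ fatouSet ff := connectedComponentIn_subset _ _

theorem UU_subset_esc (n : ℕ) : UU n ⊆ esc ff :=
  subset_esc (isPreconnected_UU n) (UU_subset_fatou n)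
    ⟨_, three_mem_UU n, BB_subset_esc n (three_mem_BB n)⟩

theorem union_subset_UU (n : ℕ) : loopS n ∪ segS n ∪ BB n ⊆ UU n := by
  refine (isPreconnected_union n).subset_connectedComponentIn (Or.inr (three_mem_BB n)) ?_
  refine subset_trans ?_ (esc_subset_fatouSet differentiable_ff)
  exact union_subset (union_subset (loopS_subset_esc n) (segS_subset_esc n)) (BB_subset_esc n)

theorem notMem_UU (n : ℕ) {p : ℂ} (hp : ∀ j, ‖ff^[j] p‖ ≤ 2 * rr (n + j)) : p ∉ UU n := by
  intro h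
  obtain ⟨C, hC, hc⟩ := harnack_chain differentiable_ff (isPreconnected_UU n) (UU_subset_esc n)
    h (three_mem_UU n)
  exact no_comparison n (three_mem_BB n) hp hC hc

theorem trap_iterate (n : ℕ) {z : ℂ} (hz : ‖z - rr n‖ ≤ dd n * rr n) (j : ℕ) :
    ‖ff^[j] z - rr (n + j)‖ ≤ dd (n + j) * rr (n + j) := by
  induction j with
  | zero => simpa using hz
  | succ j ih =>
    rw [Function.iterate_succ_apply']
    exact ff_trap (n + j) ih

theorem trap_bound (n : ℕ) {z : ℂ} (hz : ‖z - rr n‖ ≤ dd n * rr n) (j : ℕ) :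
    ‖ff^[j] z‖ ≤ 2 * rr (n + j) := by
  have h1 := trap_iterate n hz j
  have h0 := rr_pos (n + j)
  have h2 := dd_le (n + j)
  have h3 : ‖ff^[j] z‖ ≤ ‖ff^[j] z - rr (n + j)‖ + ‖(rr (n + j) : ℂ)‖ := by
    have := norm_add_le (ff^[j] z - rr (n + j)) (rr (n + j) : ℂ)
    simpa using this
  rw [Complex.norm_real, Real.norm_of_nonneg h0.le] at h3
  nlinarith

/-- the complementary components -/
def KK (n : ℕ) : Set ℂ := connectedComponentIn (UU n)ᶜ ((rr n : ℝ) : ℂ)

theorem closedBall_subset_compl (n : ℕ) :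
    closedBall ((rr n : ℝ) : ℂ) (dd n * rr n) ⊆ (UU n)ᶜ := by
  intro z hz
  rw [mem_closedBall, dist_eq_norm] at hz
  exact notMem_UU n (trap_bound n hz)

theorem dd_mul_pos (n : ℕ) : 0 < dd n * rr n := mul_pos (dd_pos n) (rr_pos n)

theorem rr_mem_compl (n : ℕ) : ((rr n : ℝ) : ℂ) ∈ (UU n)ᶜ :=
  closedBall_subset_compl n (mem_closedBall_self (dd_mul_pos n).le)

theorem rr_mem_KK (n : ℕ) : ((rr n : ℝ) : ℂ) ∈ KK n := mem_connectedComponentIn (rr_mem_compl n)

theorem KK_subset_compl (n : ℕ) : KK n ⊆ (UU n)ᶜ := connectedComponentIn_subset _ _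

theorem isPreconnected_KK (n : ℕ) : IsPreconnected (KK n) := isPreconnected_connectedComponentIn

theorem closedBall_subset_KK (n : ℕ) :
    closedBall ((rr n : ℝ) : ℂ) (dd n * rr n) ⊆ KK n :=
  (convex_closedBall _ _).isPreconnected.subset_connectedComponentIn
    (mem_closedBall_self (dd_mul_pos n).le) (closedBall_subset_compl n)

theorem KK_subset_ball (n : ℕ) : KK n ⊆ ball ((rr n : ℝ) : ℂ) (rr n / (2 * mm n)) := by
  have h0 := rr_pos n
  have hM := mm_cast_pos n
  have hpos : 0 < rr n / (2 * mm n) := by positivity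
  refine (isPreconnected_KK n).subset_of_closure_inter_subset isOpen_ball
    ⟨_, rr_mem_KK n, mem_ball_self hpos⟩ ?_
  rintro z ⟨hz, hzK⟩
  rw [closure_ball _ hpos.ne'] at hz
  rw [mem_closedBall] at hz
  rw [mem_ball]
  refine lt_of_le_of_ne hz fun h => ?_
  exact KK_subset_compl n hzK (union_subset_UU n (Or.inl (Or.inl h)))

theorem KK_norm_ge (n : ℕ) {z : ℂ} (hz : z ∈ KK n) : rr n / 2 ≤ ‖z‖ := by
  have h0 := rr_pos n
  have h1 := loopS_radius_le n
  have h2 := KK_subset_ball n hz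
  rw [mem_ball, dist_eq_norm] at h2
  have h3 : ‖(rr n : ℂ)‖ ≤ ‖z‖ + ‖z - rr n‖ := by
    have := norm_sub_le z (z - rr n)
    simpa using this
  rw [Complex.norm_real, Real.norm_of_nonneg h0.le] at h3
  linarith

theorem KK_norm_le (n : ℕ) {z : ℂ} (hz : z ∈ KK n) : ‖z‖ ≤ 2 * rr n := by
  have h0 := rr_pos n
  have h1 := loopS_radius_le n
  have h2 := KK_subset_ball n hz
  rw [mem_ball, dist_eq_norm] at h2
  have h3 : ‖z‖ ≤ ‖z - rr n‖ + ‖(rr n : ℂ)‖ := by
    have := norm_add_le (z - rr n) (rr n : ℂ)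
    simpa using this
  rw [Complex.norm_real, Real.norm_of_nonneg h0.le] at h3
  linarith

/-- Points of `KK n` are not mapped into `UU (n+1)`. -/
theorem image_KK_notMem (n : ℕ) {z : ℂ} (hz : z ∈ KK n) : ff z ∉ UU (n + 1) := by
  intro hfz
  have h0 := rr_pos n
  have hcont := differentiable_ff.continuous
  -- component W of the preimage of UU (n+1) containing z
  set P : Set ℂ := ff ⁻¹' (UU (n + 1)) with hP
  have hPo : IsOpen P := (isOpen_UU (n + 1)).preimage hcont
  have hzP : z ∈ P := hfz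
  set W : Set ℂ := connectedComponentIn P z with hW
  have hWo : IsOpen W := hPo.connectedComponentIn
  have hWc : IsPreconnected W := isPreconnected_connectedComponentIn
  have hzW : z ∈ W := mem_connectedComponentIn hzP
  have hWP : W ⊆ P := connectedComponentIn_subset _ _
  have hPesc : P ⊆ esc ff := fun w hw =>
    esc_of_image_mem_esc hcont (UU_subset_esc (n + 1) hw)
  have hWF : W ⊆ fatouSet ff := (hWP.trans hPesc).trans (esc_subset_fatouSet differentiable_ff)
  -- W is disjoint from UU n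
  have hWU : W ⊆ (UU n)ᶜ := by
    intro w hwW hwU
    have h1 : W ⊆ connectedComponentIn (fatouSet ff) w :=
      hWc.subset_connectedComponentIn hwW hWF
    have h2 : connectedComponentIn (fatouSet ff) w = UU n := by
      rw [UU] at hwU ⊢
      exact (connectedComponentIn_eq hwU).symm
    rw [h2] at h1
    exact KK_subset_compl n hz (h1 hzW)
  have hWK : W ⊆ KK n := by
    have h1 : KK n = connectedComponentIn (UU n)ᶜ z := connectedComponentIn_eq hz
    rw [h1]
    exact hWc.subset_connectedComponentIn hzW hWU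
  -- bounded
  have hWn : ∀ w ∈ W, ‖w‖ ≤ 2 * rr n := fun w hw => KK_norm_le n (hWK hw)
  -- image of W is all of UU (n+1)
  have himage : UU (n + 1) ⊆ ff '' W := by
    refine (isPreconnected_UU (n + 1)).subset_of_closure_inter_subset
      (isOpenMap_ff W hWo) ⟨ff z, hfz, mem_image_of_mem _ hzW⟩ ?_
    rintro y ⟨hyc, hyU⟩
    -- closure of W is compact
    have hcompact : IsCompact (closure W) := by
      refine (isCompact_closedBall (0 : ℂ) (2 * rr n)).of_isClosed_subset isClosed_closure ?_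
      refine closure_minimal (fun w hw => ?_) isClosed_closedBall
      rw [mem_closedBall_zero_iff]
      exact hWn w hw
    have h1 : closure (ff '' W) ⊆ ff '' (closure W) :=
      closure_minimal (image_mono subset_closure) (hcompact.image hcont).isClosed
    obtain ⟨x, hxc, rfl⟩ := h1 hyc
    have hxP : x ∈ P := hyU
    -- the component of x in P is open and meets W
    have hCo : IsOpen (connectedComponentIn P x) := hPo.connectedComponentIn
    obtain ⟨w, hw1, hw2⟩ := mem_closure_iff.1 hxc _ hCo (mem_connectedComponentIn hxP)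
    have h2 : connectedComponentIn P x = connectedComponentIn P w := connectedComponentIn_eq hw1
    have h3 : W = connectedComponentIn P w := connectedComponentIn_eq hw2
    refine ⟨x, ?_, rfl⟩
    rw [h3, ← h2]
    exact mem_connectedComponentIn hxP
  -- contradiction by size: ff is bounded by rr (n+2) / 2 on W
  -- choose a point of BB (n+1) of large modulus
  obtain ⟨S, hS1, hS2⟩ : ∃ S : ℝ, (∀ w ∈ W, ‖ff w‖ ≤ S) ∧ S < rr (n + 2) / 2 := by
    have hne : (closedBall (0 : ℂ) (2 * rr n)).Nonempty := ⟨0, by simp; linarith⟩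
    obtain ⟨x, hx, hmax⟩ := (isCompact_closedBall (0 : ℂ) (2 * rr n)).exists_isMaxOn hne
      (hcont.norm.continuousOn)
    refine ⟨‖ff x‖, fun w hw => hmax (by rw [mem_closedBall_zero_iff]; exact hWn w hw), ?_⟩
    apply ff_upper
    rw [mem_closedBall_zero_iff] at hx
    have := rr_succ_ge n
    linarith
  have h1 : max S (2 * rr (n + 1)) < rr (n + 2) / 2 := by
    refine max_lt hS2 ?_
    have := rr_succ_ge (n + 1)
    have := rr_pos (n + 1)
    linarith
  obtain ⟨t, ht1, ht2⟩ := exists_between h1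
  have ht0 : 0 < t := lt_of_lt_of_le (by have := rr_pos (n + 1); linarith)
    ((le_max_right S (2 * rr (n + 1))).trans ht1.le)
  have h2 : (t : ℂ) ∈ BB (n + 1) := by
    refine ⟨?_, ?_⟩ <;> rw [Complex.norm_real, Real.norm_of_nonneg ht0.le]
    · exact lt_of_le_of_lt (le_max_right _ _) ht1
    · exact ht2
  obtain ⟨w, hwW, hw⟩ := himage (union_subset_UU (n + 1) (Or.inr h2))
  have h3 := hS1 w hwW
  rw [hw, Complex.norm_real, Real.norm_of_nonneg ht0.le] at h3
  exact absurd (lt_of_le_of_lt (le_max_left S (2 * rr (n + 1))) ht1) (not_lt.2 h3)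

theorem image_KK_subset (n : ℕ) : ff '' KK n ⊆ KK (n + 1) := by
  have h1 : ff ((rr n : ℝ) : ℂ) ∈ KK (n + 1) := by
    apply closedBall_subset_KK
    rw [mem_closedBall, dist_eq_norm]
    apply ff_trap
    simpa using (dd_mul_pos n).le
  have h2 : KK (n + 1) = connectedComponentIn (UU (n + 1))ᶜ (ff ((rr n : ℝ) : ℂ)) :=
    connectedComponentIn_eq h1
  rw [h2]
  refine ((isPreconnected_KK n).image _ differentiable_ff.continuous.continuousOn
    ).subset_connectedComponentIn (mem_image_of_mem _ (rr_mem_KK n)) ?_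
  rintro _ ⟨z, hz, rfl⟩
  exact image_KK_notMem n hz

theorem iterate_KK (n : ℕ) {z : ℂ} (hz : z ∈ KK n) (j : ℕ) : ff^[j] z ∈ KK (n + j) := by
  induction j with
  | zero => simpa using hz
  | succ j ih =>
    rw [Function.iterate_succ_apply']
    exact image_KK_subset (n + j) (mem_image_of_mem _ ih)

theorem interior_KK_subset_esc (n : ℕ) : interior (KK n) ⊆ esc ff := by
  intro z hz
  refine ⟨interior (KK n), isOpen_interior.mem_nhds hz, fun M => ?_⟩
  have h1 : Tendsto (fun j => rr (n + j)) atTop atTop := by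
    refine tendsto_rr.comp (tendsto_atTop_mono (fun j => ?_) tendsto_id)
    simp only [id]; omega
  filter_upwards [h1.eventually (eventually_gt_atTop (2 * M))] with j hj w hw
  have h2 := KK_norm_ge (n + j) (iterate_KK n (interior_subset hw) j)
  linarith

theorem image_UU_subset (n : ℕ) : ff '' UU n ⊆ UU (n + 1) := by
  have h1 : ff ((3 * rr n : ℝ) : ℂ) ∈ UU (n + 1) :=
    union_subset_UU (n + 1) (Or.inr (BB_maps n (three_mem_BB n)))
  have h2 : UU (n + 1) = connectedComponentIn (fatouSet ff) (ff ((3 * rr n : ℝ) : ℂ)) :=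
    connectedComponentIn_eq h1
  rw [h2]
  refine ((isPreconnected_UU n).image _ differentiable_ff.continuous.continuousOn
    ).subset_connectedComponentIn (mem_image_of_mem _ (three_mem_UU n)) ?_
  rintro _ ⟨z, hz, rfl⟩
  exact esc_subset_fatouSet differentiable_ff (image_mem_esc isOpenMap_ff (UU_subset_esc n hz))

theorem iterate_UU (n j : ℕ) : ff^[j] '' UU n ⊆ UU (n + j) := by
  induction j with
  | zero => simp
  | succ j ih =>
    rw [Function.iterate_succ', image_comp]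
    exact (image_mono ih).trans (image_UU_subset (n + j))

theorem UU_ne {n m : ℕ} (hnm : n < m) : UU n ≠ UU m := by
  intro h
  have h1 : ((3 * rr n : ℝ) : ℂ) ∈ UU m := h ▸ three_mem_UU n
  refine notMem_UU m (fun j => ?_) h1
  have h2 := (iterate_mem_BB n (three_mem_BB n) j).2
  have h3 : rr (n + j + 1) ≤ rr (m + j) := rr_mono.monotone (by omega)
  have h4 := rr_pos (m + j)
  linarith

theorem UU_injective : Function.Injective UU := by
  intro n m h
  rcases lt_trichotomy n m with h1 | h1 | h1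
  · exact absurd h (UU_ne h1)
  · exact h1
  · exact absurd h.symm (UU_ne h1)

theorem zero_notMem_UU (n : ℕ) : (0 : ℂ) ∉ UU n := by
  refine notMem_UU n fun j => ?_
  have h1 : ff^[j] 0 = 0 := by
    induction j with
    | zero => rfl
    | succ j ih => rw [Function.iterate_succ_apply', ih, ff_zero]
  have := rr_pos (n + j)
  rw [h1, norm_zero]
  linarith

theorem not_isPreconnected_compl_UU (n : ℕ) : ¬ IsPreconnected (UU n)ᶜ := by
  intro h
  have h1 : (UU n)ᶜ ⊆ KK n := h.subset_connectedComponentIn (rr_mem_compl n) (subset_refl _)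
  have h2 := KK_norm_ge n (h1 (zero_notMem_UU n))
  have := rr_pos n
  rw [norm_zero] at h2
  linarith


/-! ### The main theorem -/

theorem isTypeTwo_KK (n : ℕ) : IsTypeTwo ff (KK n) := by
  constructor
  · refine ⟨((rr n : ℝ) : ℂ), mem_interior.2 ⟨ball ((rr n : ℝ) : ℂ) (dd n * rr n), ?_,
      isOpen_ball, mem_ball_self (dd_mul_pos n)⟩⟩
    exact ball_subset_closedBall.trans (closedBall_subset_KK n)
  · refine ⟨{V | ∃ z ∈ interior (KK n), V = connectedComponentIn (fatouSet ff) z}, ?_, ?_⟩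
    · rintro V ⟨z, hz, rfl⟩
      exact ⟨z, esc_subset_fatouSet differentiable_ff (interior_KK_subset_esc n hz), rfl⟩
    · apply subset_antisymm
      · intro z hz
        exact ⟨_, ⟨z, hz, rfl⟩, mem_connectedComponentIn
          (esc_subset_fatouSet differentiable_ff (interior_KK_subset_esc n hz))⟩
      · rintro w ⟨V, ⟨z, hz, rfl⟩, hw⟩
        have hzF : z ∈ fatouSet ff :=
          esc_subset_fatouSet differentiable_ff (interior_KK_subset_esc n hz)
        have hzK : z ∈ KK n := interior_subset hz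
        -- the component of `z` does not meet `UU n`
        have h1 : connectedComponentIn (fatouSet ff) z ⊆ (UU n)ᶜ := by
          intro x hx hxU
          have h2 : connectedComponentIn (fatouSet ff) z = connectedComponentIn (fatouSet ff) x :=
            connectedComponentIn_eq hx
          have h3 : UU n = connectedComponentIn (fatouSet ff) x := by
            rw [UU] at hxU ⊢
            exact connectedComponentIn_eq hxU
          have h4 : z ∈ UU n := by
            rw [h3, ← h2]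
            exact mem_connectedComponentIn hzF
          exact KK_subset_compl n hzK h4
        have h5 : connectedComponentIn (fatouSet ff) z ⊆ KK n := by
          have h6 : KK n = connectedComponentIn (UU n)ᶜ z := connectedComponentIn_eq hzK
          rw [h6]
          exact isPreconnected_connectedComponentIn.subset_connectedComponentIn
            (mem_connectedComponentIn hzF) h1
        exact interior_maximal h5 (isOpen_fatouSet ff).connectedComponentIn hw

theorem isWanderingDomain_UU : IsWanderingDomain ff (UU 0) := by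
  refine ⟨⟨_, three_mem_fatou 0, rfl⟩, UU, fun n => ⟨⟨_, three_mem_fatou n, rfl⟩, ?_⟩, ?_⟩
  · simpa using iterate_UU 0 n
  · intro n m hnm h
    exact hnm (UU_injective h)


end Pool.Agent.Helper20.TypeTwo
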