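import Mathlib

open Set Filter Topology

namespace Pool.Agent.Helper20.TypeTwo

/-! ### Definitions used in the statement -/

/-- `g k → ∞` locally uniformly on `V`. -/
def TendstoInftyLocallyUniformlyOn (g : ℕ → ℂ → ℂ) (V : Set ℂ) : Prop :=
  ∀ C : Set ℂ, C ⊆ V → IsCompact C → ∀ M : ℝ, ∀ᶠ k in atTop, ∀ z ∈ C, M < ‖g k z‖

/-- The family `{F n : n ∈ ℕ}` is normal on `V` (in the sense of Montel): every sequence of
members of the family has a subsequence which on `V` either converges locally uniformly to a
holomorphic function or tends to infinity locally uniformly. -/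
def IsNormalFamilyOn (F : ℕ → ℂ → ℂ) (V : Set ℂ) : Prop :=
  ∀ φ : ℕ → ℕ, ∃ ψ : ℕ → ℕ, StrictMono ψ ∧
    ((∃ g : ℂ → ℂ, DifferentiableOn ℂ g V ∧
        TendstoLocallyUniformlyOn (fun k => F (φ (ψ k))) g atTop V) ∨
      TendstoInftyLocallyUniformlyOn (fun k => F (φ (ψ k))) V)

/-- The Fatou set of `f`: the points having a (connected open) neighbourhood on which the iterates
`f^n`, `n ≥ 1`, form a normal family. -/
def fatouSet (f : ℂ → ℂ) : Set ℂ :=
  {z | ∃ V : Set ℂ, IsOpen V ∧ IsConnected V ∧ z ∈ V ∧
    IsNormalFamilyOn (fun n => f^[n + 1]) V}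

/-- A Fatou component of `f` is a connected component of the Fatou set. -/
def IsFatouComponent (f : ℂ → ℂ) (U : Set ℂ) : Prop :=
  ∃ z ∈ fatouSet f, U = connectedComponentIn (fatouSet f) z

/-- `U` is a wandering domain of `f`: it is a Fatou component and the Fatou components `V n`
containing `f^n(U)` are pairwise different. -/
def IsWanderingDomain (f : ℂ → ℂ) (U : Set ℂ) : Prop :=
  IsFatouComponent f U ∧ ∃ V : ℕ → Set ℂ,
    (∀ n, IsFatouComponent f (V n) ∧ f^[n] '' U ⊆ V n) ∧ ∀ n m, n ≠ m → V n ≠ V m

/-- `U` is multiply connected: its complement in the plane is not connected. -/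
def IsMultiplyConnected (U : Set ℂ) : Prop := ¬ IsPreconnected Uᶜ

/-- `K` is a complementary component of `U`: a connected component of the complement of `U`. -/
def IsComplementaryComponent (U K : Set ℂ) : Prop :=
  ∃ z ∈ Uᶜ, K = connectedComponentIn Uᶜ z

/-- `K` is of type 2: its interior is non-empty and is a union of Fatou components of `f`. -/
def IsTypeTwo (f : ℂ → ℂ) (K : Set ℂ) : Prop :=
  (interior K).Nonempty ∧
    ∃ S : Set (Set ℂ), (∀ V ∈ S, IsFatouComponent f V) ∧ interior K = ⋃₀ S

/-- `f` is a transcendental entire function: entire and not a polynomial. -/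
def IsTranscendentalEntire (f : ℂ → ℂ) : Prop :=
  Differentiable ℂ f ∧ ¬ ∃ p : Polynomial ℂ, ∀ z, f z = p.eval z

end Pool.Agent.Helper20.TypeTwo
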